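import Mathlib

/-!
# IRR (MP_83b46e_ag), clause (4), block [C]: the certificates

`T π ε` are elements of a group `G` with `T π ε * T π' ε' = T (π π') (ε' · (ε ∘ π'))`; `A` is a function on `G` with values in an
additive group, invariant under the right translations by the elements `T π 1`. The certificates say that a multiple of `A 1` is a
combination of the sums of `A` over left cosets of three subgroups.
-/

set_option autoImplicit false

namespace Pool.Agent.Helper67.IR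

open Equiv

/-- regrouping -/
lemma regroup {α β M : Type*} [Fintype β] [DecidableEq β] [AddCommGroup M] (s : Finset α) (g : α → β) (n : ℤ)
    (B : β → M) : n • ∑ x ∈ s, B (g x) = ∑ e : β, (∑ x ∈ s with g x = e, n) • B e := by
  have h1 : ∀ e : β, (∑ x ∈ s with g x = e, n) • B e = ∑ x ∈ s with g x = e, n • B (g x) := by
    intro e
    rw [Finset.sum_smul]
    refine Finset.sum_congr rfl fun x hx => ?_
    rw [(Finset.mem_filter.mp hx).2]
  rw [Finset.sum_congr rfl fun e _ => h1 e, Finset.smul_sum]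
  exact (Finset.sum_fiberwise s g _).symm

lemma list_regroup {ι β M : Type*} [Fintype β] [AddCommGroup M] (L : List ι) (c : ι → β → ℤ) (B : β → M) :
    (L.map fun g => ∑ e : β, c g e • B e).sum = ∑ e : β, (L.map fun g => c g e).sum • B e := by
  induction L with
  | nil => simp
  | cons a L ih => simp only [List.map_cons, List.sum_cons, ih, add_smul, Finset.sum_add_distrib]

/-- the sign vector with one entry `-1` -/
def flp {n : ℕ} (j : Fin n) : Fin n → ℤˣ := fun i => if i = j then -1 else 1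

section phi

/-- the generators of the certificate of `Phi`: (coefficient, number of the subgroup, permutation, signs) -/
def genPhi : List (ℤ × Fin 3 × Perm (Fin 3) × (Fin 3 → ℤˣ)) :=
  [(6, 0, 1, 1), (3, 0, swap 0 1, 1), (-3, 0, swap 0 1, flp 0), (3, 0, swap 0 2, 1), (-3, 0, swap 0 2, flp 0),
   (3, 1, 1, 1), (-3, 1, 1, flp 0), (3, 1, swap 2 1, 1), (-3, 1, swap 2 1, flp 0), (3, 1, swap 2 0, 1), (-3, 1, swap 2 0, flp 0),
   (1, 2, 1, 1), (-1, 2, 1, flp 0)]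

/-- the three subgroups -/
def grpPhi (i : Fin 3) : Finset (Perm (Fin 3) × (Fin 3 → ℤˣ)) :=
  if i = 0 then Finset.univ.filter fun p => p.1 0 = 0 ∧ p.2 0 = 1
  else if i = 1 then Finset.univ.filter fun p => p.1 2 = 2 ∧ p.2 0 * p.2 1 = 1
  else Finset.univ.filter fun p => p.2 0 * p.2 1 * p.2 2 = 1

lemma countPhi : ∀ e : Fin 3 → ℤˣ, (genPhi.map fun g => ∑ _p ∈ (grpPhi g.2.1).filter
    (fun p => (fun i => p.2 ((g.2.2.1 * p.1)⁻¹ i) * g.2.2.2 (p.1 ((g.2.2.1 * p.1)⁻¹ i))) = e), g.1).sum =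
    if e = 1 then 48 else 0 := by
  decide +kernel

theorem cert_phi {G M : Type*} [Group G] [AddCommGroup M] (T : Perm (Fin 3) → (Fin 3 → ℤˣ) → G)
    (hT : ∀ π ε π' ε', T π ε * T π' ε' = T (π * π') fun i => ε' i * ε (π' i)) (A : G → M)
    (hA : ∀ g π, A (g * T π 1) = A g) :
    (48 : ℤ) • A 1 = (genPhi.map fun g => g.1 • ∑ p ∈ grpPhi g.2.1, A (T g.2.2.1 g.2.2.2 * T p.1 p.2)).sum := by
  have h1 : T 1 1 = 1 := by
    have h2 := hT 1 1 1 1
    have h3 : (fun i : Fin 3 => (1 : Fin 3 → ℤˣ) i * (1 : Fin 3 → ℤˣ) ((1 : Perm (Fin 3)) i)) = 1 := by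
      funext i
      exact mul_one _
    rw [h3, mul_one] at h2
    exact mul_eq_left.mp h2
  have hB : ∀ π ε, A (T π ε) = A (T 1 fun i => ε (π⁻¹ i)) := by
    intro π ε
    rw [← hA (T 1 fun i => ε (π⁻¹ i)) π, hT, one_mul]
    congr 2
    funext i
    change ε i = 1 * ε (π⁻¹ (π i))
    rw [one_mul]
    exact congrArg ε (π.symm_apply_apply i).symm
  have h4 : ∀ g : ℤ × Fin 3 × Perm (Fin 3) × (Fin 3 → ℤˣ),
      g.1 • ∑ p ∈ grpPhi g.2.1, A (T g.2.2.1 g.2.2.2 * T p.1 p.2) = ∑ e : Fin 3 → ℤˣ, (∑ _p ∈ (grpPhi g.2.1).filter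
        (fun p => (fun i => p.2 ((g.2.2.1 * p.1)⁻¹ i) * g.2.2.2 (p.1 ((g.2.2.1 * p.1)⁻¹ i))) = e), g.1) • A (T 1 e) := by
    intro g
    rw [← regroup (grpPhi g.2.1) (fun p => (fun i => p.2 ((g.2.2.1 * p.1)⁻¹ i) * g.2.2.2 (p.1 ((g.2.2.1 * p.1)⁻¹ i)))) g.1
      (fun e => A (T 1 e))]
    congr 1
    refine Finset.sum_congr rfl fun p _ => ?_
    rw [hT, hB]
  rw [List.map_congr_left fun g _ => h4 g, list_regroup, Finset.sum_congr rfl fun e _ => by rw [countPhi e]]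
  simp only [ite_smul, zero_smul, Finset.sum_ite_eq', Finset.mem_univ, if_true]
  rw [h1]

end phi

section psi

/-- the generators of the certificate of `Psi`: (coefficient, number of the subgroup, permutation, signs, sign) -/
def genPsi : List (ℤ × Fin 3 × Perm (Fin 2) × (Fin 2 → ℤˣ) × ℤˣ) :=
  [(8, 0, 1, 1, 1), (4, 0, swap 0 1, 1, 1), (-4, 0, swap 0 1, flp 0, 1), (1, 1, 1, 1, 1), (-1, 1, 1, flp 0, 1), (1, 2, 1, 1, 1),
   (-1, 2, 1, flp 0, 1)]

/-- the three subgroups -/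
def grpPsi (i : Fin 3) : Finset (Perm (Fin 2) × (Fin 2 → ℤˣ) × ℤˣ) :=
  if i = 0 then Finset.univ.filter fun p => p.1 = 1 ∧ p.2.1 0 = 1 ∧ p.2.2 = 1
  else if i = 1 then Finset.univ.filter fun p => p.2.1 0 * p.2.1 1 = 1
  else Finset.univ.filter fun p => p.2.1 0 * p.2.1 1 * p.2.2 = 1

lemma countPsi : ∀ e : (Fin 2 → ℤˣ) × ℤˣ, (genPsi.map fun g => ∑ _p ∈ (grpPsi g.2.1).filter
    (fun p => ((fun i => p.2.1 ((g.2.2.1 * p.1)⁻¹ i) * g.2.2.2.1 (p.1 ((g.2.2.1 * p.1)⁻¹ i)), g.2.2.2.2 * p.2.2) :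
      (Fin 2 → ℤˣ) × ℤˣ) = e), g.1).sum = if e = 1 then 16 else 0 := by
  decide +kernel

theorem cert_psi {G M : Type*} [Group G] [AddCommGroup M] (T : Perm (Fin 2) → (Fin 2 → ℤˣ) → ℤˣ → G)
    (hT : ∀ π ε δ π' ε' δ', T π ε δ * T π' ε' δ' = T (π * π') (fun i => ε' i * ε (π' i)) (δ * δ')) (A : G → M)
    (hA : ∀ g π, A (g * T π 1 1) = A g) :
    (16 : ℤ) • A 1 =
      (genPsi.map fun g => g.1 • ∑ p ∈ grpPsi g.2.1, A (T g.2.2.1 g.2.2.2.1 g.2.2.2.2 * T p.1 p.2.1 p.2.2)).sum := by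
  have h1 : T 1 1 1 = 1 := by
    have h2 := hT 1 1 1 1 1 1
    have h3 : (fun i : Fin 2 => (1 : Fin 2 → ℤˣ) i * (1 : Fin 2 → ℤˣ) ((1 : Perm (Fin 2)) i)) = 1 := by
      funext i
      exact mul_one _
    rw [h3, mul_one, mul_one] at h2
    exact mul_eq_left.mp h2
  have hB : ∀ π ε δ, A (T π ε δ) = A (T 1 (fun i => ε (π⁻¹ i)) δ) := by
    intro π ε δ
    rw [← hA (T 1 (fun i => ε (π⁻¹ i)) δ) π, hT, one_mul, mul_one]
    congr 2
    funext i
    change ε i = 1 * ε (π⁻¹ (π i))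
    rw [one_mul]
    exact congrArg ε (π.symm_apply_apply i).symm
  have h4 : ∀ g : ℤ × Fin 3 × Perm (Fin 2) × (Fin 2 → ℤˣ) × ℤˣ,
      g.1 • ∑ p ∈ grpPsi g.2.1, A (T g.2.2.1 g.2.2.2.1 g.2.2.2.2 * T p.1 p.2.1 p.2.2) =
        ∑ e : (Fin 2 → ℤˣ) × ℤˣ, (∑ _p ∈ (grpPsi g.2.1).filter
          (fun p => ((fun i => p.2.1 ((g.2.2.1 * p.1)⁻¹ i) * g.2.2.2.1 (p.1 ((g.2.2.1 * p.1)⁻¹ i)), g.2.2.2.2 * p.2.2) :
            (Fin 2 → ℤˣ) × ℤˣ) = e), g.1) • A (T 1 e.1 e.2) := by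
    intro g
    rw [← regroup (grpPsi g.2.1) (fun p =>
      ((fun i => p.2.1 ((g.2.2.1 * p.1)⁻¹ i) * g.2.2.2.1 (p.1 ((g.2.2.1 * p.1)⁻¹ i)), g.2.2.2.2 * p.2.2) :
            (Fin 2 → ℤˣ) × ℤˣ)) g.1 (fun e => A (T 1 e.1 e.2))]
    congr 1
    refine Finset.sum_congr rfl fun p _ => ?_
    rw [hT, hB]
  rw [List.map_congr_left fun g _ => h4 g, list_regroup, Finset.sum_congr rfl fun e _ => by rw [countPsi e]]
  simp only [ite_smul, zero_smul, Finset.sum_ite_eq', Finset.mem_univ, if_true]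
  rw [← h1]
  rfl

end psi

end Pool.Agent.Helper67.IR
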