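import Mathlib
import Pool.Agent.Helper67.IR.Cert

/-!
# IRR (MP_83b46e_ag), clause (4), block [C]: the certificates for subgroups
-/

set_option autoImplicit false

namespace Pool.Agent.Helper67.IR

open Equiv

/-- sums over a subgroup which is the injective image of a finset -/
lemma sum_subgroup {G M : Type*} [Group G] [AddCommMonoid M] (Γ : Subgroup G) [Fintype Γ] {α : Type*} (s : Finset α) (f : α → G)
    (hinj : Set.InjOn f s) (hΓ : ∀ g, g ∈ Γ ↔ ∃ a ∈ s, f a = g) (A : G → M) (h : G) :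
    ∑ γ : Γ, A (h * γ) = ∑ a ∈ s, A (h * f a) := by
  classical
  symm
  refine Finset.sum_bij (fun a ha => (⟨f a, (hΓ _).mpr ⟨a, ha, rfl⟩⟩ : Γ)) (fun _ _ => Finset.mem_univ _) ?_ ?_ fun _ _ => rfl
  · intro a ha b hb hab
    exact hinj ha hb (Subtype.ext_iff.mp hab)
  · rintro ⟨g, hg⟩ -
    obtain ⟨a, ha, rfl⟩ := (hΓ g).mp hg
    exact ⟨a, ha, rfl⟩

/-- the coefficients -/
noncomputable def cof {G α : Type*} (L : List (ℤ × Fin 3 × α)) (t : α → G) (i : Fin 3) : G →₀ ℤ :=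
  (L.map fun g => if g.2.1 = i then Finsupp.single (t g.2.2) g.1 else 0).sum

lemma sum_cof {G α M : Type*} [AddCommGroup M] (L : List (ℤ × Fin 3 × α)) (t : α → G) (F : Fin 3 → G → M) :
    ∑ i, (cof L t i).sum (fun h n => n • F i h) = (L.map fun g => g.1 • F g.2.1 (t g.2.2)).sum := by
  induction L with
  | nil => simp [cof]
  | cons a L ih =>
    have h1 : ∀ i, cof (a :: L) t i = (if a.2.1 = i then Finsupp.single (t a.2.2) a.1 else 0) + cof L t i := by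
      intro i
      simp [cof]
    have h2 : ∀ i, (cof (a :: L) t i).sum (fun h n => n • F i h) =
        (if a.2.1 = i then a.1 • F i (t a.2.2) else 0) + (cof L t i).sum (fun h n => n • F i h) := by
      intro i
      rw [h1, Finsupp.sum_add_index' (h := fun h n => n • F i h) (fun h => zero_smul ℤ _) (fun h b c => add_smul b c _)]
      congr 1
      split_ifs
      · rw [Finsupp.sum_single_index (h := fun h n => n • F i h) (zero_smul ℤ _)]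
      · exact Finsupp.sum_zero_index
    rw [Finset.sum_congr rfl fun i _ => h2 i, Finset.sum_add_distrib, ih]
    simp

section phi

variable {G : Type*} [Group G] {T : Perm (Fin 3) → (Fin 3 → ℤˣ) → G}

lemma mulPhi : ∀ (i : Fin 3), ∀ p ∈ grpPhi i, ∀ q ∈ grpPhi i, (p.1 * q.1, fun j => q.2 j * p.2 (q.1 j)) ∈ grpPhi i := by
  decide +kernel

lemma invPhi : ∀ (i : Fin 3), ∀ p ∈ grpPhi i, (p.1⁻¹, fun j => p.2 (p.1⁻¹ j)) ∈ grpPhi i := by
  decide +kernel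

lemma onePhi : ∀ (i : Fin 3), ((1, 1) : Perm (Fin 3) × (Fin 3 → ℤˣ)) ∈ grpPhi i := by
  decide +kernel

lemma T_one (hT : ∀ π ε π' ε', T π ε * T π' ε' = T (π * π') fun i => ε' i * ε (π' i)) : T 1 1 = 1 := by
  have h2 := hT 1 1 1 1
  have h3 : (fun i : Fin 3 => (1 : Fin 3 → ℤˣ) i * (1 : Fin 3 → ℤˣ) ((1 : Perm (Fin 3)) i)) = 1 := by
    funext i
    exact mul_one _
  rw [h3, mul_one] at h2
  exact mul_eq_left.mp h2

lemma T_inv (hT : ∀ π ε π' ε', T π ε * T π' ε' = T (π * π') fun i => ε' i * ε (π' i)) (π : Perm (Fin 3))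
    (ε : Fin 3 → ℤˣ) : (T π ε)⁻¹ = T π⁻¹ fun j => ε (π⁻¹ j) := by
  rw [inv_eq_iff_mul_eq_one, hT, mul_inv_cancel]
  have h3 : (fun i : Fin 3 => ε (π⁻¹ i) * ε (π⁻¹ i)) = 1 := by
    funext i
    exact Int.units_mul_self _
  rw [h3]
  exact T_one hT

/-- the subgroup number `i` -/
def subPhi (hT : ∀ π ε π' ε', T π ε * T π' ε' = T (π * π') fun i => ε' i * ε (π' i)) (i : Fin 3) : Subgroup G where
  carrier := {g | ∃ p ∈ grpPhi i, T p.1 p.2 = g}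
  mul_mem' := by
    rintro _ _ ⟨p, hp, rfl⟩ ⟨q, hq, rfl⟩
    exact ⟨_, mulPhi i p hp q hq, (hT _ _ _ _).symm⟩
  one_mem' := ⟨_, onePhi i, T_one hT⟩
  inv_mem' := by
    rintro _ ⟨p, hp, rfl⟩
    exact ⟨_, invPhi i p hp, (T_inv hT _ _).symm⟩

lemma mem_subPhi (hT : ∀ π ε π' ε', T π ε * T π' ε' = T (π * π') fun i => ε' i * ε (π' i)) (i : Fin 3) (g : G) :
    g ∈ subPhi hT i ↔ ∃ p ∈ grpPhi i, T p.1 p.2 = g := Iff.rfl

/-- the certificate for three subgroups `Γ i` -/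
theorem cert_phi_sub (hT : ∀ π ε π' ε', T π ε * T π' ε' = T (π * π') fun i => ε' i * ε (π' i))
    (hinj : ∀ π ε π' ε', T π ε = T π' ε' → π = π' ∧ ε = ε') (Γ : Fin 3 → Subgroup G) [∀ i, Fintype (Γ i)]
    (hΓ : ∀ i g, g ∈ Γ i ↔ ∃ p ∈ grpPhi i, T p.1 p.2 = g) {M : Type*} [AddCommGroup M] (A : G → M)
    (hA : ∀ g π, A (g * T π 1) = A g) :
    (48 : ℤ) • A 1 = ∑ i, (cof genPhi (fun x => T x.1 x.2) i).sum fun h n => n • ∑ γ : Γ i, A (h * γ) := by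
  rw [sum_cof genPhi (fun x => T x.1 x.2) fun i h => ∑ γ : Γ i, A (h * γ), cert_phi T hT A hA]
  congr 1
  refine List.map_congr_left fun g _ => ?_
  congr 1
  refine (sum_subgroup (Γ g.2.1) (grpPhi g.2.1) (fun p => T p.1 p.2) ?_ (hΓ _) A _).symm
  intro p _ q _ hpq
  obtain ⟨h1, h2⟩ := hinj _ _ _ _ hpq
  exact Prod.ext h1 h2

end phi

section psi

variable {G : Type*} [Group G] {T : Perm (Fin 2) → (Fin 2 → ℤˣ) → ℤˣ → G}

lemma mulPsi : ∀ (i : Fin 3), ∀ p ∈ grpPsi i, ∀ q ∈ grpPsi i,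
    (p.1 * q.1, (fun j => q.2.1 j * p.2.1 (q.1 j)), p.2.2 * q.2.2) ∈ grpPsi i := by
  decide +kernel

lemma invPsi : ∀ (i : Fin 3), ∀ p ∈ grpPsi i, (p.1⁻¹, (fun j => p.2.1 (p.1⁻¹ j)), p.2.2) ∈ grpPsi i := by
  decide +kernel

lemma onePsi : ∀ (i : Fin 3), ((1, 1, 1) : Perm (Fin 2) × (Fin 2 → ℤˣ) × ℤˣ) ∈ grpPsi i := by
  decide +kernel

lemma S_one (hT : ∀ π ε δ π' ε' δ', T π ε δ * T π' ε' δ' = T (π * π') (fun i => ε' i * ε (π' i)) (δ * δ')) :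
    T 1 1 1 = 1 := by
  have h2 := hT 1 1 1 1 1 1
  have h3 : (fun i : Fin 2 => (1 : Fin 2 → ℤˣ) i * (1 : Fin 2 → ℤˣ) ((1 : Perm (Fin 2)) i)) = 1 := by
    funext i
    exact mul_one _
  rw [h3, mul_one, mul_one] at h2
  exact mul_eq_left.mp h2

lemma S_inv (hT : ∀ π ε δ π' ε' δ', T π ε δ * T π' ε' δ' = T (π * π') (fun i => ε' i * ε (π' i)) (δ * δ'))
    (π : Perm (Fin 2)) (ε : Fin 2 → ℤˣ) (δ : ℤˣ) : (T π ε δ)⁻¹ = T π⁻¹ (fun j => ε (π⁻¹ j)) δ := by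
  rw [inv_eq_iff_mul_eq_one, hT, mul_inv_cancel, Int.units_mul_self]
  have h3 : (fun i : Fin 2 => ε (π⁻¹ i) * ε (π⁻¹ i)) = 1 := by
    funext i
    exact Int.units_mul_self _
  rw [h3]
  exact S_one hT

/-- the subgroup number `i` -/
def subPsi (hT : ∀ π ε δ π' ε' δ', T π ε δ * T π' ε' δ' = T (π * π') (fun i => ε' i * ε (π' i)) (δ * δ')) (i : Fin 3) :
    Subgroup G where
  carrier := {g | ∃ p ∈ grpPsi i, T p.1 p.2.1 p.2.2 = g}
  mul_mem' := by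
    rintro _ _ ⟨p, hp, rfl⟩ ⟨q, hq, rfl⟩
    exact ⟨_, mulPsi i p hp q hq, (hT _ _ _ _ _ _).symm⟩
  one_mem' := ⟨_, onePsi i, S_one hT⟩
  inv_mem' := by
    rintro _ ⟨p, hp, rfl⟩
    exact ⟨_, invPsi i p hp, (S_inv hT _ _ _).symm⟩

/-- the certificate for three subgroups `Γ i` -/
theorem cert_psi_sub (hT : ∀ π ε δ π' ε' δ', T π ε δ * T π' ε' δ' = T (π * π') (fun i => ε' i * ε (π' i)) (δ * δ'))
    (hinj : ∀ π ε δ π' ε' δ', T π ε δ = T π' ε' δ' → π = π' ∧ ε = ε' ∧ δ = δ') (Γ : Fin 3 → Subgroup G)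
    [∀ i, Fintype (Γ i)] (hΓ : ∀ i g, g ∈ Γ i ↔ ∃ p ∈ grpPsi i, T p.1 p.2.1 p.2.2 = g) {M : Type*} [AddCommGroup M]
    (A : G → M) (hA : ∀ g π, A (g * T π 1 1) = A g) :
    (16 : ℤ) • A 1 =
      ∑ i, (cof genPsi (fun x => T x.1 x.2.1 x.2.2) i).sum fun h n => n • ∑ γ : Γ i, A (h * γ) := by
  rw [sum_cof genPsi (fun x => T x.1 x.2.1 x.2.2) fun i h => ∑ γ : Γ i, A (h * γ), cert_psi T hT A hA]
  congr 1
  refine List.map_congr_left fun g _ => ?_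
  congr 1
  refine (sum_subgroup (Γ g.2.1) (grpPsi g.2.1) (fun p => T p.1 p.2.1 p.2.2) ?_ (hΓ _) A _).symm
  intro p _ q _ hpq
  obtain ⟨h1, h2, h3⟩ := hinj _ _ _ _ _ _ hpq
  exact Prod.ext h1 (Prod.ext h2 h3)

end psi

end Pool.Agent.Helper67.IR
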