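import Mathlib

/-!
# IRR (MP_83b46e_ag), clause (4), block [I]: fixed fields by counting degrees

`Bd K m`: `N` has degree at most `m` over the intermediate field `K` of `N / k`.
-/

set_option autoImplicit false

namespace Pool.Agent.Helper67.IR

open Polynomial IntermediateField

section

variable {k N : Type*} [Field k] [Field N] [Algebra k N]

/-- `N` has degree at most `m` over `K` -/
def Bd (K : IntermediateField k N) (m : ℕ) : Prop := FiniteDimensional K N ∧ Module.finrank K N ≤ m

lemma bd_top : Bd (⊤ : IntermediateField k N) 1 := by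
  have h : Module.finrank (⊤ : IntermediateField k N) N = 1 := IntermediateField.finrank_top
  exact ⟨Module.finite_of_finrank_pos (by rw [h]; exact one_pos), h.le⟩

lemma bd_step {K : IntermediateField k N} {m d : ℕ} (t : N) (p : K[X]) (hp : p.Monic) (hd : p.natDegree ≤ d)
    (ht : aeval t p = 0) (h : Bd (K ⊔ adjoin k {t}) m) : Bd K (d * m) := by
  have hint : IsIntegral K t := ⟨p, hp, ht⟩
  have e : (adjoin K ({t} : Set N)).restrictScalars k = K ⊔ adjoin k {t} :=
    restrictScalars_adjoin_eq_sup k K {t}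
  rw [← e] at h
  obtain ⟨h1, h2⟩ := h
  have h3 : FiniteDimensional (adjoin K ({t} : Set N)) N := h1
  have h4 : Module.finrank (adjoin K ({t} : Set N)) N ≤ m := h2
  have h5 : FiniteDimensional K (adjoin K ({t} : Set N)) := adjoin.finiteDimensional hint
  have h6 : Module.finrank K (adjoin K ({t} : Set N)) ≤ d := by
    rw [adjoin.finrank hint]
    exact (natDegree_le_of_dvd (minpoly.dvd K t ht) hp.ne_zero).trans hd
  refine ⟨FiniteDimensional.trans K (adjoin K ({t} : Set N)) N, ?_⟩
  rw [← Module.finrank_mul_finrank K (adjoin K ({t} : Set N)) N]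
  exact Nat.mul_le_mul h6 h4

/-- a quadratic step -/
lemma bd_quad {K : IntermediateField k N} {m : ℕ} (t : N) {b c : N} (hb : b ∈ K) (hc : c ∈ K)
    (ht : t ^ 2 + b * t + c = 0) (h : Bd (K ⊔ adjoin k {t}) m) : Bd K (2 * m) := by
  refine bd_step t (X ^ 2 + C ⟨b, hb⟩ * X + C ⟨c, hc⟩ : K[X]) ?_ ?_ ?_ h
  · monicity!
  · compute_degree
  · simpa [IntermediateField.algebraMap_apply] using ht

/-- a square root -/
lemma bd_sqrt {K : IntermediateField k N} {m : ℕ} (t : N) (hb : t ^ 2 ∈ K) (h : Bd (K ⊔ adjoin k {t}) m) :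
    Bd K (2 * m) :=
  bd_quad t (b := 0) (c := - t ^ 2) K.zero_mem (K.neg_mem hb) (by ring) h

/-- a cubic step -/
lemma bd_cub {K : IntermediateField k N} {m : ℕ} (t : N) {a b c : N} (ha : a ∈ K) (hb : b ∈ K) (hc : c ∈ K)
    (ht : t ^ 3 + a * t ^ 2 + b * t + c = 0) (h : Bd (K ⊔ adjoin k {t}) m) : Bd K (3 * m) := by
  refine bd_step t (X ^ 3 + C ⟨a, ha⟩ * X ^ 2 + C ⟨b, hb⟩ * X + C ⟨c, hc⟩ : K[X]) ?_ ?_ ?_ h
  · monicity!
  · compute_degree
  · simpa [IntermediateField.algebraMap_apply] using ht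

/-- the comparison -/
theorem eq_fixedField {L : IntermediateField k N} {m : ℕ} (h : Bd L m) (Γ : Subgroup (N ≃ₐ[k] N)) [Finite Γ]
    (hL : L ≤ fixedField Γ) (hm : m ≤ Nat.card Γ) : fixedField Γ = L := by
  classical
  have hfin := Fintype.ofFinite Γ
  have h1 := h.1
  refine (eq_of_le_of_finrank_le' hL ?_).symm
  have h2 : Module.finrank (FixedPoints.subfield Γ N) N = Fintype.card Γ := FixedPoints.finrank_eq_card Γ N
  have h3 : Module.finrank (fixedField Γ) N = Fintype.card Γ := h2
  rw [h3, ← Nat.card_eq_fintype_card]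
  exact h.2.trans hm

end

end Pool.Agent.Helper67.IR
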