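import Mathlib
import Pool.Agent.Helper67.IR.Deg

/-!
# IRR (MP_83b46e_ag), clause (4), block [I]: the six fixed fields by counting degrees
-/

set_option autoImplicit false

namespace Pool.Agent.Helper67.IR

open Polynomial IntermediateField

section

variable {k N : Type*} [Field k] [Field N] [Algebra k N]

lemma aeval_mem' {K : IntermediateField k N} {t : N} (ht : t ∈ K) (f : k[X]) : aeval t f ∈ K := by
  have h : aeval t f = ((aeval (⟨t, ht⟩ : K) f : K) : N) := by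
    have e := (aeval_algebraMap_apply N (⟨t, ht⟩ : K) f)
    exact e
  rw [h]
  exact SetLike.coe_mem _

lemma mem_sup_left' {K L : IntermediateField k N} {t : N} (h : t ∈ K) : t ∈ K ⊔ L := (le_sup_left : K ≤ K ⊔ L) h

lemma mem_sup_self (K : IntermediateField k N) (t : N) : t ∈ K ⊔ adjoin k {t} :=
  (le_sup_right : adjoin k {t} ≤ K ⊔ adjoin k {t}) (subset_adjoin k _ rfl)

lemma eq_top_of {S : Set N} (hS : adjoin k S = ⊤) {K : IntermediateField k N} (h : ∀ s ∈ S, s ∈ K) : K = ⊤ := by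
  rw [eq_top_iff, ← hS, adjoin_le_iff]
  exact h

/-- `Phi`, first field -/
theorem bd_phi0 {x0 x1 x2 y0 y1 y2 : N} {f : k[X]} (h1 : y1 ^ 2 = aeval x1 f) (h2 : y2 ^ 2 = aeval x2 f)
    (hgen : adjoin k ({x0, x1, x2, y0, y1, y2} : Set N) = ⊤) : Bd (adjoin k ({x0, y0, x1 + x2, x1 * x2} : Set N)) 8 := by
  set K0 := adjoin k ({x0, y0, x1 + x2, x1 * x2} : Set N) with hK0
  have m1 : x0 ∈ K0 := subset_adjoin k _ (by simp)
  have m2 : y0 ∈ K0 := subset_adjoin k _ (by simp)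
  have m3 : x1 + x2 ∈ K0 := subset_adjoin k _ (by simp)
  have m4 : x1 * x2 ∈ K0 := subset_adjoin k _ (by simp)
  refine bd_quad (m := 4) x1 (b := -(x1 + x2)) (c := x1 * x2) (K0.neg_mem m3) m4 (by ring) ?_
  set K1 := K0 ⊔ adjoin k {x1} with hK1
  have n1 : x1 ∈ K1 := mem_sup_self _ _
  have n2 : x2 ∈ K1 := by
    have e : x2 = (x1 + x2) - x1 := by ring
    rw [e]
    exact K1.sub_mem (mem_sup_left' m3) n1
  refine bd_sqrt (m := 2) y1 (by rw [h1]; exact aeval_mem' n1 f) ?_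
  set K2 := K1 ⊔ adjoin k {y1} with hK2
  refine bd_sqrt (m := 1) y2 (by rw [h2]; exact aeval_mem' (mem_sup_left' n2) f) ?_
  have hT : K2 ⊔ adjoin k {y2} = ⊤ := by
    refine eq_top_of hgen ?_
    intro s hs
    rcases hs with rfl | rfl | rfl | rfl | rfl | rfl
    · exact mem_sup_left' (mem_sup_left' (mem_sup_left' m1))
    · exact mem_sup_left' (mem_sup_left' n1)
    · exact mem_sup_left' (mem_sup_left' n2)
    · exact mem_sup_left' (mem_sup_left' (mem_sup_left' m2))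
    · exact mem_sup_left' (mem_sup_self _ _)
    · exact mem_sup_self _ _
  rw [hT]
  exact bd_top

/-- `Phi`, second field -/
theorem bd_phi1 {x0 x1 x2 y0 y1 y2 : N} {f : k[X]} (h0 : y0 ^ 2 = aeval x0 f) (h2 : y2 ^ 2 = aeval x2 f) (hy : y0 ≠ 0)
    (hx2 : x2 ∈ adjoin k ({x0, x1} : Set N))
    (hgen : adjoin k ({x0, x1, x2, y0, y1, y2} : Set N) = ⊤) : Bd (adjoin k ({x0 + x1, x0 * x1, y0 * y1} : Set N)) 8 := by
  set K0 := adjoin k ({x0 + x1, x0 * x1, y0 * y1} : Set N) with hK0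
  have m1 : x0 + x1 ∈ K0 := subset_adjoin k _ (by simp)
  have m2 : x0 * x1 ∈ K0 := subset_adjoin k _ (by simp)
  have m3 : y0 * y1 ∈ K0 := subset_adjoin k _ (by simp)
  refine bd_quad (m := 4) x0 (b := -(x0 + x1)) (c := x0 * x1) (K0.neg_mem m1) m2 (by ring) ?_
  set K1 := K0 ⊔ adjoin k {x0} with hK1
  have n1 : x0 ∈ K1 := mem_sup_self _ _
  have n2 : x1 ∈ K1 := by
    have e : x1 = (x0 + x1) - x0 := by ring
    rw [e]
    exact K1.sub_mem (mem_sup_left' m1) n1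
  have n3 : x2 ∈ K1 := by
    have h : adjoin k ({x0, x1} : Set N) ≤ K1 := by
      rw [adjoin_le_iff]
      rintro s (rfl | rfl)
      · exact n1
      · exact n2
    exact h hx2
  refine bd_sqrt (m := 2) y0 (by rw [h0]; exact aeval_mem' n1 f) ?_
  set K2 := K1 ⊔ adjoin k {y0} with hK2
  have p1 : y0 ∈ K2 := mem_sup_self _ _
  have p2 : y1 ∈ K2 := by
    have e : y1 = (y0 * y1) / y0 := by field_simp
    rw [e]
    exact K2.div_mem (mem_sup_left' (mem_sup_left' m3)) p1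
  refine bd_sqrt (m := 1) y2 (by rw [h2]; exact aeval_mem' (mem_sup_left' n3) f) ?_
  have hT : K2 ⊔ adjoin k {y2} = ⊤ := by
    refine eq_top_of hgen ?_
    intro s hs
    rcases hs with rfl | rfl | rfl | rfl | rfl | rfl
    · exact mem_sup_left' (mem_sup_left' n1)
    · exact mem_sup_left' (mem_sup_left' n2)
    · exact mem_sup_left' (mem_sup_left' n3)
    · exact mem_sup_left' p1
    · exact mem_sup_left' p2
    · exact mem_sup_self _ _
  rw [hT]
  exact bd_top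

/-- `Phi`, third field -/
theorem bd_phi2 {x0 x1 x2 y0 y1 y2 : N} {f : k[X]} (h0 : y0 ^ 2 = aeval x0 f) (h1 : y1 ^ 2 = aeval x1 f) (hy0 : y0 ≠ 0)
    (hy1 : y1 ≠ 0) (hgen : adjoin k ({x0, x1, x2, y0, y1, y2} : Set N) = ⊤) :
    Bd (adjoin k ({x0 + x1 + x2, x0 * x1 + x0 * x2 + x1 * x2, x0 * x1 * x2, y0 * y1 * y2} : Set N)) 24 := by
  set K0 := adjoin k ({x0 + x1 + x2, x0 * x1 + x0 * x2 + x1 * x2, x0 * x1 * x2, y0 * y1 * y2} : Set N) with hK0
  have m1 : x0 + x1 + x2 ∈ K0 := subset_adjoin k _ (by simp)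
  have m2 : x0 * x1 + x0 * x2 + x1 * x2 ∈ K0 := subset_adjoin k _ (by simp)
  have m3 : x0 * x1 * x2 ∈ K0 := subset_adjoin k _ (by simp)
  have m4 : y0 * y1 * y2 ∈ K0 := subset_adjoin k _ (by simp)
  refine bd_cub (m := 8) x0 (a := -(x0 + x1 + x2)) (b := x0 * x1 + x0 * x2 + x1 * x2) (c := -(x0 * x1 * x2))
    (K0.neg_mem m1) m2 (K0.neg_mem m3) (by ring) ?_
  set K1 := K0 ⊔ adjoin k {x0} with hK1
  have n1 : x0 ∈ K1 := mem_sup_self _ _
  have n2 : x1 + x2 ∈ K1 := by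
    have e : x1 + x2 = (x0 + x1 + x2) - x0 := by ring
    rw [e]
    exact K1.sub_mem (mem_sup_left' m1) n1
  have n3 : x1 * x2 ∈ K1 := by
    have e : x1 * x2 = (x0 * x1 + x0 * x2 + x1 * x2) - x0 * (x1 + x2) := by ring
    rw [e]
    exact K1.sub_mem (mem_sup_left' m2) (K1.mul_mem n1 n2)
  refine bd_quad (m := 4) x1 (b := -(x1 + x2)) (c := x1 * x2) (K1.neg_mem n2) n3 (by ring) ?_
  set K2 := K1 ⊔ adjoin k {x1} with hK2
  have p1 : x1 ∈ K2 := mem_sup_self _ _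
  have p2 : x2 ∈ K2 := by
    have e : x2 = (x1 + x2) - x1 := by ring
    rw [e]
    exact K2.sub_mem (mem_sup_left' n2) p1
  refine bd_sqrt (m := 2) y0 (by rw [h0]; exact aeval_mem' (mem_sup_left' n1) f) ?_
  set K3 := K2 ⊔ adjoin k {y0} with hK3
  refine bd_sqrt (m := 1) y1 (by rw [h1]; exact aeval_mem' (mem_sup_left' p1) f) ?_
  have hT : K3 ⊔ adjoin k {y1} = ⊤ := by
    have q0 : y0 ∈ K3 ⊔ adjoin k {y1} := mem_sup_left' (mem_sup_self _ _)
    have q1 : y1 ∈ K3 ⊔ adjoin k {y1} := mem_sup_self _ _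
    refine eq_top_of hgen ?_
    intro s hs
    rcases hs with rfl | rfl | rfl | rfl | rfl | rfl
    · exact mem_sup_left' (mem_sup_left' (mem_sup_left' n1))
    · exact mem_sup_left' (mem_sup_left' p1)
    · exact mem_sup_left' (mem_sup_left' p2)
    · exact q0
    · exact q1
    · have e : s = (y0 * y1 * s) / (y0 * y1) := by field_simp
      rw [e]
      exact (K3 ⊔ adjoin k {y1}).div_mem (mem_sup_left' (mem_sup_left' (mem_sup_left' (mem_sup_left' m4))))
        ((K3 ⊔ adjoin k {y1}).mul_mem q0 q1)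
  rw [hT]
  exact bd_top

/-- `Psi`, first field -/
theorem bd_psi0 {x0 x1 y0 y1 z : N} {f : k[X]} (h1 : y1 ^ 2 = aeval x1 f)
    (hgen : adjoin k ({x0, x1, y0, y1, z} : Set N) = ⊤) : Bd (adjoin k ({x0, x1, y0, z} : Set N)) 2 := by
  set K0 := adjoin k ({x0, x1, y0, z} : Set N) with hK0
  have m1 : x0 ∈ K0 := subset_adjoin k _ (by simp)
  have m2 : x1 ∈ K0 := subset_adjoin k _ (by simp)
  have m3 : y0 ∈ K0 := subset_adjoin k _ (by simp)
  have m4 : z ∈ K0 := subset_adjoin k _ (by simp)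
  refine bd_sqrt (m := 1) y1 (by rw [h1]; exact aeval_mem' m2 f) ?_
  have hT : K0 ⊔ adjoin k {y1} = ⊤ := by
    refine eq_top_of hgen ?_
    intro s hs
    rcases hs with rfl | rfl | rfl | rfl | rfl
    · exact mem_sup_left' m1
    · exact mem_sup_left' m2
    · exact mem_sup_left' m3
    · exact mem_sup_self _ _
    · exact mem_sup_left' m4
  rw [hT]
  exact bd_top

/-- `Psi`, second field -/
theorem bd_psi1 {x0 x1 y0 y1 z : N} {f : k[X]} (h0 : y0 ^ 2 = aeval x0 f) (hy : y0 ≠ 0)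
    (hz : z ^ 2 ∈ adjoin k ({x0, x1} : Set N))
    (hgen : adjoin k ({x0, x1, y0, y1, z} : Set N) = ⊤) : Bd (adjoin k ({x0 + x1, x0 * x1, y0 * y1} : Set N)) 8 := by
  set K0 := adjoin k ({x0 + x1, x0 * x1, y0 * y1} : Set N) with hK0
  have m1 : x0 + x1 ∈ K0 := subset_adjoin k _ (by simp)
  have m2 : x0 * x1 ∈ K0 := subset_adjoin k _ (by simp)
  have m3 : y0 * y1 ∈ K0 := subset_adjoin k _ (by simp)
  refine bd_quad (m := 4) x0 (b := -(x0 + x1)) (c := x0 * x1) (K0.neg_mem m1) m2 (by ring) ?_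
  set K1 := K0 ⊔ adjoin k {x0} with hK1
  have n1 : x0 ∈ K1 := mem_sup_self _ _
  have n2 : x1 ∈ K1 := by
    have e : x1 = (x0 + x1) - x0 := by ring
    rw [e]
    exact K1.sub_mem (mem_sup_left' m1) n1
  have n3 : z ^ 2 ∈ K1 := by
    have h : adjoin k ({x0, x1} : Set N) ≤ K1 := by
      rw [adjoin_le_iff]
      rintro s (rfl | rfl)
      · exact n1
      · exact n2
    exact h hz
  refine bd_sqrt (m := 2) y0 (by rw [h0]; exact aeval_mem' n1 f) ?_
  set K2 := K1 ⊔ adjoin k {y0} with hK2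
  have p1 : y0 ∈ K2 := mem_sup_self _ _
  have p2 : y1 ∈ K2 := by
    have e : y1 = (y0 * y1) / y0 := by field_simp
    rw [e]
    exact K2.div_mem (mem_sup_left' (mem_sup_left' m3)) p1
  refine bd_sqrt (m := 1) z (mem_sup_left' n3) ?_
  have hT : K2 ⊔ adjoin k {z} = ⊤ := by
    refine eq_top_of hgen ?_
    intro s hs
    rcases hs with rfl | rfl | rfl | rfl | rfl
    · exact mem_sup_left' (mem_sup_left' n1)
    · exact mem_sup_left' (mem_sup_left' n2)
    · exact mem_sup_left' p1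
    · exact mem_sup_left' p2
    · exact mem_sup_self _ _
  rw [hT]
  exact bd_top

/-- `Psi`, third field -/
theorem bd_psi2 {x0 x1 y0 y1 z : N} {f : k[X]} (h0 : y0 ^ 2 = aeval x0 f) (h1 : y1 ^ 2 = aeval x1 f) (hy0 : y0 ≠ 0)
    (hy1 : y1 ≠ 0) (hgen : adjoin k ({x0, x1, y0, y1, z} : Set N) = ⊤) :
    Bd (adjoin k ({x0 + x1, x0 * x1, y0 * y1 * z} : Set N)) 8 := by
  set K0 := adjoin k ({x0 + x1, x0 * x1, y0 * y1 * z} : Set N) with hK0
  have m1 : x0 + x1 ∈ K0 := subset_adjoin k _ (by simp)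
  have m2 : x0 * x1 ∈ K0 := subset_adjoin k _ (by simp)
  have m3 : y0 * y1 * z ∈ K0 := subset_adjoin k _ (by simp)
  refine bd_quad (m := 4) x0 (b := -(x0 + x1)) (c := x0 * x1) (K0.neg_mem m1) m2 (by ring) ?_
  set K1 := K0 ⊔ adjoin k {x0} with hK1
  have n1 : x0 ∈ K1 := mem_sup_self _ _
  have n2 : x1 ∈ K1 := by
    have e : x1 = (x0 + x1) - x0 := by ring
    rw [e]
    exact K1.sub_mem (mem_sup_left' m1) n1
  refine bd_sqrt (m := 2) y0 (by rw [h0]; exact aeval_mem' n1 f) ?_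
  set K2 := K1 ⊔ adjoin k {y0} with hK2
  refine bd_sqrt (m := 1) y1 (by rw [h1]; exact aeval_mem' (mem_sup_left' n2) f) ?_
  have hT : K2 ⊔ adjoin k {y1} = ⊤ := by
    have q0 : y0 ∈ K2 ⊔ adjoin k {y1} := mem_sup_left' (mem_sup_self _ _)
    have q1 : y1 ∈ K2 ⊔ adjoin k {y1} := mem_sup_self _ _
    refine eq_top_of hgen ?_
    intro s hs
    rcases hs with rfl | rfl | rfl | rfl | rfl
    · exact mem_sup_left' (mem_sup_left' n1)
    · exact mem_sup_left' (mem_sup_left' n2)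
    · exact q0
    · exact q1
    · have e : s = (y0 * y1 * s) / (y0 * y1) := by field_simp
      rw [e]
      exact (K2 ⊔ adjoin k {y1}).div_mem (mem_sup_left' (mem_sup_left' (mem_sup_left' m3)))
        ((K2 ⊔ adjoin k {y1}).mul_mem q0 q1)
  rw [hT]
  exact bd_top

end

end Pool.Agent.Helper67.IR
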