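import Mathlib
import Pool.Agent.Helper67.IR.Fix
import Pool.Agent.Helper67.IR.CertB

/-!
# IRR (MP_83b46e_ag), clause (4), block [I]: the fixed fields of the six groups

The automorphisms are given: `T π ε (x i) = x (π i)`, `T π ε (y i) = ε i * y (π i)`.
-/

set_option autoImplicit false

namespace Pool.Agent.Helper67.IR

open Polynomial IntermediateField Equiv

section

variable {k N : Type*} [Field k] [Field N] [Algebra k N]

lemma ext_of_gen {S : Set N} (hS : adjoin k S = ⊤) {σ τ : N ≃ₐ[k] N} (h : ∀ s ∈ S, σ s = τ s) : σ = τ := by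
  have h1 : ∀ t : N, t ∈ adjoin k S → σ t = τ t := by
    intro t ht
    induction ht using adjoin_induction with
    | mem s hs => exact h s hs
    | algebraMap c => rw [σ.commutes, τ.commutes]
    | add a b _ _ ha hb => rw [map_add, map_add, ha, hb]
    | inv a _ ha => rw [map_inv₀, map_inv₀, ha]
    | mul a b _ _ ha hb => rw [map_mul, map_mul, ha, hb]
  exact AlgEquiv.ext fun t => h1 t (by rw [hS]; trivial)

/-- the signs as elements of `N` -/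
def sg (e : ℤˣ) : N := ((e : ℤ) : N)

lemma sg_one : sg (1 : ℤˣ) = (1 : N) := by simp [sg]

lemma sg_mul (a b : ℤˣ) : sg (a * b) = (sg a : N) * sg b := by simp [sg]

lemma map_sg (σ : N ≃ₐ[k] N) (e : ℤˣ) : σ (sg e) = sg e := by simp [sg]

lemma sg_inj [CharZero N] {a b : ℤˣ} (h : (sg a : N) = sg b) : a = b := by
  have h1 : ((a : ℤ) : N) = ((b : ℤ) : N) := h
  exact Units.ext (Int.cast_injective h1)

section phi

variable {x y : Fin 3 → N} {T : Perm (Fin 3) → (Fin 3 → ℤˣ) → (N ≃ₐ[k] N)}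

/-- the multiplication rule -/
lemma mul_rule (hgen : adjoin k (Set.range x ∪ Set.range y) = ⊤) (hx : ∀ π ε i, T π ε (x i) = x (π i))
    (hy : ∀ π ε i, T π ε (y i) = sg (ε i) * y (π i)) (π : Perm (Fin 3)) (ε : Fin 3 → ℤˣ) (π' : Perm (Fin 3))
    (ε' : Fin 3 → ℤˣ) : T π ε * T π' ε' = T (π * π') fun i => ε' i * ε (π' i) := by
  refine ext_of_gen hgen ?_
  rintro s (⟨i, rfl⟩ | ⟨i, rfl⟩)
  · rw [AlgEquiv.mul_apply, hx, hx, hx]
    rfl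
  · rw [AlgEquiv.mul_apply, hy, map_mul, map_sg, hy, hy, sg_mul, mul_assoc]
    rfl

lemma inj_rule [CharZero N] (hxi : Function.Injective x) (hy0 : ∀ i, y i ≠ 0) (hx : ∀ π ε i, T π ε (x i) = x (π i))
    (hy : ∀ π ε i, T π ε (y i) = sg (ε i) * y (π i)) (π : Perm (Fin 3)) (ε : Fin 3 → ℤˣ) (π' : Perm (Fin 3))
    (ε' : Fin 3 → ℤˣ) (h : T π ε = T π' ε') : π = π' ∧ ε = ε' := by
  have h1 : π = π' := by
    refine Equiv.ext fun i => hxi ?_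
    rw [← hx π ε, ← hx π' ε', h]
  refine ⟨h1, funext fun i => ?_⟩
  have h2 : sg (ε i) * y (π i) = sg (ε' i) * y (π i) := by
    rw [← hy π ε, h, hy, h1]
  exact sg_inj (mul_right_cancel₀ (hy0 _) h2)

lemma card_grpPhi (i : Fin 3) : (grpPhi i).card = if i = 2 then 24 else 8 := by
  revert i
  decide +kernel

lemma card_sub_ge {G α : Type*} [Group G] (Γ : Subgroup G) (s : Finset α) (f : α → G) (hinj : Set.InjOn f s)
    (hΓ : ∀ g, g ∈ Γ ↔ ∃ a ∈ s, f a = g) : Finite Γ ∧ Nat.card Γ = s.card := by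
  classical
  have e : (Γ : Set G) = (s.image f : Finset G) := by
    ext g
    rw [Finset.coe_image]
    exact (hΓ g).trans ⟨fun ⟨a, h1, h2⟩ => ⟨a, h1, h2⟩, fun ⟨a, h1, h2⟩ => ⟨a, h1, h2⟩⟩
  have h1 : (Γ : Set G).Finite := by rw [e]; exact Finset.finite_toSet _
  refine ⟨h1, ?_⟩
  have h2 : Nat.card Γ = Set.ncard (Γ : Set G) := rfl
  rw [h2, e, Set.ncard_coe_finset, Finset.card_image_of_injOn hinj]

lemma perm3 : ∀ π : Perm (Fin 3), (π 0 = 0 ∧ π 1 = 1 ∧ π 2 = 2) ∨ (π 0 = 0 ∧ π 1 = 2 ∧ π 2 = 1) ∨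
    (π 0 = 1 ∧ π 1 = 0 ∧ π 2 = 2) ∨ (π 0 = 1 ∧ π 1 = 2 ∧ π 2 = 0) ∨ (π 0 = 2 ∧ π 1 = 0 ∧ π 2 = 1) ∨
    (π 0 = 2 ∧ π 1 = 1 ∧ π 2 = 0) := by
  decide +kernel

lemma perm3a : ∀ π : Perm (Fin 3), π 0 = 0 → (π 1 = 1 ∧ π 2 = 2) ∨ (π 1 = 2 ∧ π 2 = 1) := by
  decide +kernel

lemma perm3b : ∀ π : Perm (Fin 3), π 2 = 2 → (π 0 = 0 ∧ π 1 = 1) ∨ (π 0 = 1 ∧ π 1 = 0) := by
  decide +kernel

lemma perm2 : ∀ π : Perm (Fin 2), (π 0 = 0 ∧ π 1 = 1) ∨ (π 0 = 1 ∧ π 1 = 0) := by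
  decide +kernel

/-- `Phi`: the three fixed fields -/
theorem fixed_phi [CharZero N] {f : k[X]} (hf : ∀ i, y i ^ 2 = aeval (x i) f)
    (hgen : adjoin k (Set.range x ∪ Set.range y) = ⊤) (hxi : Function.Injective x) (hy0 : ∀ i, y i ≠ 0)
    (hx2 : x 2 ∈ adjoin k ({x 0, x 1} : Set N)) (hx : ∀ π ε i, T π ε (x i) = x (π i))
    (hy : ∀ π ε i, T π ε (y i) = sg (ε i) * y (π i)) (Γ : Fin 3 → Subgroup (N ≃ₐ[k] N))
    (hΓ : ∀ i g, g ∈ Γ i ↔ ∃ p ∈ grpPhi i, T p.1 p.2 = g) :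
    fixedField (Γ 0) = adjoin k {x 0, y 0, x 1 + x 2, x 1 * x 2} ∧
    fixedField (Γ 1) = adjoin k {x 0 + x 1, x 0 * x 1, y 0 * y 1} ∧
    fixedField (Γ 2) = adjoin k {x 0 + x 1 + x 2, x 0 * x 1 + x 0 * x 2 + x 1 * x 2, x 0 * x 1 * x 2, y 0 * y 1 * y 2} := by
  have hinj : ∀ i, Set.InjOn (fun p : Perm (Fin 3) × (Fin 3 → ℤˣ) => T p.1 p.2) (grpPhi i : Set _) := by
    intro i p _ q _ h
    obtain ⟨h1, h2⟩ := inj_rule hxi hy0 hx hy _ _ _ _ h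
    exact Prod.ext h1 h2
  have hc := fun i => card_sub_ge (Γ i) (grpPhi i) (fun p => T p.1 p.2) (hinj i) (hΓ i)
  have hgen' : adjoin k ({x 0, x 1, x 2, y 0, y 1, y 2} : Set N) = ⊤ := by
    refine eq_top_of hgen ?_
    rintro s (⟨i, rfl⟩ | ⟨i, rfl⟩) <;> refine subset_adjoin k _ ?_ <;> fin_cases i <;> simp
  refine ⟨?_, ?_, ?_⟩
  · have := (hc 0).1
    refine eq_fixedField (bd_phi0 (hf 1) (hf 2) hgen') (Γ 0) ?_ (by rw [(hc 0).2, card_grpPhi]; decide)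
    rw [adjoin_le_iff]
    intro s hs
    rw [SetLike.mem_coe, mem_fixedField_iff]
    intro g hg
    obtain ⟨⟨π, ε⟩, hp, rfl⟩ := (hΓ 0 g).mp hg
    have hp' : π 0 = 0 ∧ ε 0 = 1 := by simpa [grpPhi] using hp
    obtain ⟨hπ, hε⟩ := hp'
    change T π ε s = s
    rcases hs with rfl | rfl | rfl | rfl
    · rw [hx, hπ]
    · rw [hy, hπ, hε, sg_one, one_mul]
    · rw [map_add, hx, hx]
      rcases perm3a π hπ with ⟨h1, h2⟩ | ⟨h1, h2⟩ <;> rw [h1, h2]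
      exact add_comm _ _
    · rw [map_mul, hx, hx]
      rcases perm3a π hπ with ⟨h1, h2⟩ | ⟨h1, h2⟩ <;> rw [h1, h2]
      exact mul_comm _ _
  · have := (hc 1).1
    refine eq_fixedField (bd_phi1 (hf 0) (hf 2) (hy0 0) hx2 hgen') (Γ 1) ?_ (by rw [(hc 1).2, card_grpPhi]; decide)
    rw [adjoin_le_iff]
    intro s hs
    rw [SetLike.mem_coe, mem_fixedField_iff]
    intro g hg
    obtain ⟨⟨π, ε⟩, hp, rfl⟩ := (hΓ 1 g).mp hg
    have hp' : π 2 = 2 ∧ ε 0 * ε 1 = 1 := by simpa [grpPhi] using hp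
    obtain ⟨hπ, hε⟩ := hp'
    change T π ε s = s
    rcases hs with rfl | rfl | rfl
    · rw [map_add, hx, hx]
      rcases perm3b π hπ with ⟨h1, h2⟩ | ⟨h1, h2⟩ <;> rw [h1, h2]
      exact add_comm _ _
    · rw [map_mul, hx, hx]
      rcases perm3b π hπ with ⟨h1, h2⟩ | ⟨h1, h2⟩ <;> rw [h1, h2]
      exact mul_comm _ _
    · rw [map_mul, hy, hy]
      have e : sg (ε 0) * y (π 0) * (sg (ε 1) * y (π 1)) = sg (ε 0 * ε 1) * (y (π 0) * y (π 1)) := by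
        rw [sg_mul]; ring
      rw [e, hε, sg_one, one_mul]
      rcases perm3b π hπ with ⟨h1, h2⟩ | ⟨h1, h2⟩ <;> rw [h1, h2]
      exact mul_comm _ _
  · have := (hc 2).1
    refine eq_fixedField (bd_phi2 (hf 0) (hf 1) (hy0 0) (hy0 1) hgen') (Γ 2) ?_ (by rw [(hc 2).2, card_grpPhi]; decide)
    rw [adjoin_le_iff]
    intro s hs
    rw [SetLike.mem_coe, mem_fixedField_iff]
    intro g hg
    obtain ⟨⟨π, ε⟩, hp, rfl⟩ := (hΓ 2 g).mp hg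
    have hε : ε 0 * ε 1 * ε 2 = 1 := by simpa [grpPhi] using hp
    change T π ε s = s
    rcases hs with rfl | rfl | rfl | rfl
    · rw [map_add, map_add, hx, hx, hx]
      rcases perm3 π with ⟨h1, h2, h3⟩ | ⟨h1, h2, h3⟩ | ⟨h1, h2, h3⟩ | ⟨h1, h2, h3⟩ | ⟨h1, h2, h3⟩ | ⟨h1, h2, h3⟩ <;>
        rw [h1, h2, h3] <;> ring
    · rw [map_add, map_add, map_mul, map_mul, map_mul, hx, hx, hx]
      rcases perm3 π with ⟨h1, h2, h3⟩ | ⟨h1, h2, h3⟩ | ⟨h1, h2, h3⟩ | ⟨h1, h2, h3⟩ | ⟨h1, h2, h3⟩ | ⟨h1, h2, h3⟩ <;>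
        rw [h1, h2, h3] <;> ring
    · rw [map_mul, map_mul, hx, hx, hx]
      rcases perm3 π with ⟨h1, h2, h3⟩ | ⟨h1, h2, h3⟩ | ⟨h1, h2, h3⟩ | ⟨h1, h2, h3⟩ | ⟨h1, h2, h3⟩ | ⟨h1, h2, h3⟩ <;>
        rw [h1, h2, h3] <;> ring
    · rw [map_mul, map_mul, hy, hy, hy]
      have e : sg (ε 0) * y (π 0) * (sg (ε 1) * y (π 1)) * (sg (ε 2) * y (π 2)) =
          sg (ε 0 * ε 1 * ε 2) * (y (π 0) * y (π 1) * y (π 2)) := by
        rw [sg_mul, sg_mul]; ring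
      rw [e, hε, sg_one, one_mul]
      rcases perm3 π with ⟨h1, h2, h3⟩ | ⟨h1, h2, h3⟩ | ⟨h1, h2, h3⟩ | ⟨h1, h2, h3⟩ | ⟨h1, h2, h3⟩ | ⟨h1, h2, h3⟩ <;>
        rw [h1, h2, h3] <;> ring

end phi

section psi

variable {x y : Fin 2 → N} {z : N} {T : Perm (Fin 2) → (Fin 2 → ℤˣ) → ℤˣ → (N ≃ₐ[k] N)}

/-- the multiplication rule -/
lemma mul_rule' (hgen : adjoin k (Set.range x ∪ Set.range y ∪ {z}) = ⊤) (hx : ∀ π ε δ i, T π ε δ (x i) = x (π i))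
    (hy : ∀ π ε δ i, T π ε δ (y i) = sg (ε i) * y (π i)) (hz : ∀ π ε δ, T π ε δ z = sg δ * z) (π : Perm (Fin 2))
    (ε : Fin 2 → ℤˣ) (δ : ℤˣ) (π' : Perm (Fin 2)) (ε' : Fin 2 → ℤˣ) (δ' : ℤˣ) :
    T π ε δ * T π' ε' δ' = T (π * π') (fun i => ε' i * ε (π' i)) (δ * δ') := by
  refine ext_of_gen hgen ?_
  rintro s ((⟨i, rfl⟩ | ⟨i, rfl⟩) | rfl)
  · rw [AlgEquiv.mul_apply, hx, hx, hx]
    rfl
  · rw [AlgEquiv.mul_apply, hy, map_mul, map_sg, hy, hy, sg_mul, mul_assoc]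
    rfl
  · rw [AlgEquiv.mul_apply, hz, map_mul, map_sg, hz, hz, sg_mul, ← mul_assoc, mul_comm (sg δ)]

lemma inj_rule' [CharZero N] (hxi : Function.Injective x) (hy0 : ∀ i, y i ≠ 0) (hz0 : z ≠ 0)
    (hx : ∀ π ε δ i, T π ε δ (x i) = x (π i)) (hy : ∀ π ε δ i, T π ε δ (y i) = sg (ε i) * y (π i))
    (hz : ∀ π ε δ, T π ε δ z = sg δ * z) (π : Perm (Fin 2)) (ε : Fin 2 → ℤˣ) (δ : ℤˣ) (π' : Perm (Fin 2))
    (ε' : Fin 2 → ℤˣ) (δ' : ℤˣ) (h : T π ε δ = T π' ε' δ') : π = π' ∧ ε = ε' ∧ δ = δ' := by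
  have h1 : π = π' := by
    refine Equiv.ext fun i => hxi ?_
    rw [← hx π ε δ, ← hx π' ε' δ', h]
  refine ⟨h1, funext fun i => ?_, ?_⟩
  · have h2 : sg (ε i) * y (π i) = sg (ε' i) * y (π i) := by
      rw [← hy π ε δ, h, hy, h1]
    exact sg_inj (mul_right_cancel₀ (hy0 _) h2)
  · have h2 : sg δ * z = sg δ' * z := by
      rw [← hz π ε δ, h, hz]
    exact sg_inj (mul_right_cancel₀ hz0 h2)

lemma card_grpPsi (i : Fin 3) : (grpPsi i).card = if i = 0 then 2 else 8 := by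
  revert i
  decide +kernel

/-- `Psi`: the three fixed fields -/
theorem fixed_psi [CharZero N] {f : k[X]} (hf : ∀ i, y i ^ 2 = aeval (x i) f)
    (hgen : adjoin k (Set.range x ∪ Set.range y ∪ {z}) = ⊤) (hxi : Function.Injective x) (hy0 : ∀ i, y i ≠ 0)
    (hz0 : z ≠ 0) (hz2 : z ^ 2 ∈ adjoin k ({x 0, x 1} : Set N))
    (hx : ∀ π ε δ i, T π ε δ (x i) = x (π i)) (hy : ∀ π ε δ i, T π ε δ (y i) = sg (ε i) * y (π i))
    (hz : ∀ π ε δ, T π ε δ z = sg δ * z) (Γ : Fin 3 → Subgroup (N ≃ₐ[k] N))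
    (hΓ : ∀ i g, g ∈ Γ i ↔ ∃ p ∈ grpPsi i, T p.1 p.2.1 p.2.2 = g) :
    fixedField (Γ 0) = adjoin k {x 0, x 1, y 0, z} ∧
    fixedField (Γ 1) = adjoin k {x 0 + x 1, x 0 * x 1, y 0 * y 1} ∧
    fixedField (Γ 2) = adjoin k {x 0 + x 1, x 0 * x 1, y 0 * y 1 * z} := by
  have hinj : ∀ i, Set.InjOn (fun p : Perm (Fin 2) × (Fin 2 → ℤˣ) × ℤˣ => T p.1 p.2.1 p.2.2) (grpPsi i : Set _) := by
    intro i p _ q _ h
    obtain ⟨h1, h2, h3⟩ := inj_rule' hxi hy0 hz0 hx hy hz _ _ _ _ _ _ h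
    exact Prod.ext h1 (Prod.ext h2 h3)
  have hc := fun i => card_sub_ge (Γ i) (grpPsi i) (fun p => T p.1 p.2.1 p.2.2) (hinj i) (hΓ i)
  have hgen' : adjoin k ({x 0, x 1, y 0, y 1, z} : Set N) = ⊤ := by
    refine eq_top_of hgen ?_
    rintro s ((⟨i, rfl⟩ | ⟨i, rfl⟩) | rfl)
    · refine subset_adjoin k _ ?_
      fin_cases i <;> simp
    · refine subset_adjoin k _ ?_
      fin_cases i <;> simp
    · exact subset_adjoin k _ (by simp)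
  have hsum : ∀ π : Perm (Fin 2), x (π 0) + x (π 1) = x 0 + x 1 := by
    intro π
    rcases perm2 π with ⟨h1, h2⟩ | ⟨h1, h2⟩ <;> rw [h1, h2]
    exact add_comm _ _
  have hprod : ∀ π : Perm (Fin 2), x (π 0) * x (π 1) = x 0 * x 1 := by
    intro π
    rcases perm2 π with ⟨h1, h2⟩ | ⟨h1, h2⟩ <;> rw [h1, h2]
    exact mul_comm _ _
  have hpy : ∀ π : Perm (Fin 2), y (π 0) * y (π 1) = y 0 * y 1 := by
    intro π
    rcases perm2 π with ⟨h1, h2⟩ | ⟨h1, h2⟩ <;> rw [h1, h2]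
    exact mul_comm _ _
  refine ⟨?_, ?_, ?_⟩
  · have := (hc 0).1
    refine eq_fixedField (bd_psi0 (hf 1) hgen') (Γ 0) ?_ (by rw [(hc 0).2, card_grpPsi]; decide)
    rw [adjoin_le_iff]
    intro s hs
    rw [SetLike.mem_coe, mem_fixedField_iff]
    intro g hg
    obtain ⟨⟨π, ε, δ⟩, hp, rfl⟩ := (hΓ 0 g).mp hg
    have hp' : π = 1 ∧ ε 0 = 1 ∧ δ = 1 := by simpa [grpPsi] using hp
    obtain ⟨rfl, hε, rfl⟩ := hp'
    change T 1 ε 1 s = s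
    rcases hs with rfl | rfl | rfl | rfl
    · rw [hx]; rfl
    · rw [hx]; rfl
    · rw [hy, hε, sg_one, one_mul]; rfl
    · rw [hz, sg_one, one_mul]
  · have := (hc 1).1
    refine eq_fixedField (bd_psi1 (hf 0) (hy0 0) hz2 hgen') (Γ 1) ?_ (by rw [(hc 1).2, card_grpPsi]; decide)
    rw [adjoin_le_iff]
    intro s hs
    rw [SetLike.mem_coe, mem_fixedField_iff]
    intro g hg
    obtain ⟨⟨π, ε, δ⟩, hp, rfl⟩ := (hΓ 1 g).mp hg
    have hε : ε 0 * ε 1 = 1 := by simpa [grpPsi] using hp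
    change T π ε δ s = s
    rcases hs with rfl | rfl | rfl
    · rw [map_add, hx, hx, hsum]
    · rw [map_mul, hx, hx, hprod]
    · rw [map_mul, hy, hy]
      have e : sg (ε 0) * y (π 0) * (sg (ε 1) * y (π 1)) = sg (ε 0 * ε 1) * (y (π 0) * y (π 1)) := by
        rw [sg_mul]; ring
      rw [e, hε, sg_one, one_mul, hpy]
  · have := (hc 2).1
    refine eq_fixedField (bd_psi2 (hf 0) (hf 1) (hy0 0) (hy0 1) hgen') (Γ 2) ?_ (by rw [(hc 2).2, card_grpPsi]; decide)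
    rw [adjoin_le_iff]
    intro s hs
    rw [SetLike.mem_coe, mem_fixedField_iff]
    intro g hg
    obtain ⟨⟨π, ε, δ⟩, hp, rfl⟩ := (hΓ 2 g).mp hg
    have hε : ε 0 * ε 1 * δ = 1 := by simpa [grpPsi] using hp
    change T π ε δ s = s
    rcases hs with rfl | rfl | rfl
    · rw [map_add, hx, hx, hsum]
    · rw [map_mul, hx, hx, hprod]
    · rw [map_mul, map_mul, hy, hy, hz]
      have e : sg (ε 0) * y (π 0) * (sg (ε 1) * y (π 1)) * (sg δ * z) =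
          sg (ε 0 * ε 1 * δ) * (y (π 0) * y (π 1) * z) := by
        rw [sg_mul, sg_mul]; ring
      rw [e, hε, sg_one, one_mul, hpy]

end psi

end

end Pool.Agent.Helper67.IR
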