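import Mathlib

/-!
# IRR (MP_83b46e_ag), clause (4), block [I]: products of six linear forms
-/

set_option autoImplicit false

namespace Pool.Agent.Helper67.IR

open Polynomial IntermediateField

section

variable {k N : Type*} [Field k] [Field N] [Algebra k N]

/-- a polynomial of degree at most `n + 1` is a product of `n + 1` nonzero polynomials of degree at most one -/
lemma exists_fac [IsAlgClosed k] (n : ℕ) : ∀ f : k[X], f ≠ 0 → f.natDegree ≤ n + 1 → ∃ p q : Fin (n + 1) → k,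
    (∀ j, p j ≠ 0 ∨ q j ≠ 0) ∧ f = ∏ j, (C (p j) * X + C (q j)) := by
  induction n with
  | zero =>
    intro f hf hd
    obtain ⟨a, b, e⟩ : ∃ a b : k, f = C a * X + C b := ⟨_, _, eq_X_add_C_of_natDegree_le_one hd⟩
    refine ⟨fun _ => a, fun _ => b, fun _ => ?_, by simpa using e⟩
    by_contra hcon
    push Not at hcon
    obtain ⟨rfl, rfl⟩ := hcon
    exact hf (by rw [e]; simp)
  | succ n ih =>
    intro f hf hd
    by_cases h : f.natDegree ≤ n + 1
    · obtain ⟨p, q, h1, h2⟩ := ih f hf h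
      refine ⟨Fin.cons 0 p, Fin.cons 1 q, ?_, ?_⟩
      · intro j
        refine Fin.cases ?_ ?_ j
        · right
          simp
        · intro i
          simpa using h1 i
      · rw [Fin.prod_univ_succ]
        simpa using h2
    · have hd2 : f.degree ≠ 0 := by
        intro h0
        have : f.natDegree = 0 := natDegree_eq_of_degree_eq_some h0
        omega
      obtain ⟨a, ha⟩ := IsAlgClosed.exists_root f hd2
      obtain ⟨g, hg⟩ := dvd_iff_isRoot.mpr ha
      have hg0 : g ≠ 0 := by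
        rintro rfl
        exact hf (by rw [hg, mul_zero])
      have hgd : g.natDegree ≤ n + 1 := by
        have h3 := natDegree_mul (X_sub_C_ne_zero a) hg0
        rw [← hg, natDegree_X_sub_C] at h3
        omega
      obtain ⟨p, q, h1, h2⟩ := ih g hg0 hgd
      refine ⟨Fin.cons 1 p, Fin.cons (-a) q, ?_, ?_⟩
      · intro j
        refine Fin.cases ?_ ?_ j
        · left
          simp
        · intro i
          simpa using h1 i
      · rw [Fin.prod_univ_succ, hg, h2]
        simp [sub_eq_add_neg]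

/-- two variables -/
lemma six_two {n : ℕ} {f : k[X]} {p q : Fin n → k} (hf : f = ∏ j, (C (p j) * X + C (q j))) (x0 x1 : N) :
    aeval x0 f * aeval x1 f = ∏ j, (algebraMap k N (q j ^ 2) + algebraMap k N (p j * q j) * (x0 + x1) +
      algebraMap k N (p j ^ 2) * (x0 * x1)) := by
  rw [hf, map_prod, map_prod, ← Finset.prod_mul_distrib]
  refine Finset.prod_congr rfl fun j _ => ?_
  simp only [map_add, map_mul, aeval_C, aeval_X, map_pow]
  ring

/-- three variables -/
lemma six_three {n : ℕ} {f : k[X]} {p q : Fin n → k} (hf : f = ∏ j, (C (p j) * X + C (q j))) (x0 x1 x2 : N) :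
    aeval x0 f * aeval x1 f * aeval x2 f = ∏ j, (algebraMap k N (q j ^ 3) +
      algebraMap k N (p j * q j ^ 2) * (x0 + x1 + x2) + algebraMap k N (p j ^ 2 * q j) * (x0 * x1 + x0 * x2 + x1 * x2) +
      algebraMap k N (p j ^ 3) * (x0 * x1 * x2)) := by
  rw [hf, map_prod, map_prod, map_prod, ← Finset.prod_mul_distrib, ← Finset.prod_mul_distrib]
  refine Finset.prod_congr rfl fun j _ => ?_
  simp only [map_add, map_mul, aeval_C, aeval_X, map_pow]
  ring

lemma mem_lin {K : IntermediateField k N} {u v : N} {a b c : k} (hu : u ∈ K) (hv : v ∈ K) :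
    algebraMap k N a + algebraMap k N b * u + algebraMap k N c * v ∈ K :=
  K.add_mem (K.add_mem (K.algebraMap_mem _) (K.mul_mem (K.algebraMap_mem _) hu)) (K.mul_mem (K.algebraMap_mem _) hv)

/-- the result for the second fields: `w ^ 2` is a product of six linear forms, none of them zero -/
theorem six_phi1 [IsAlgClosed k] {f : k[X]} (hf : f ≠ 0) (hd : f.natDegree ≤ 6) {x0 x1 y0 y1 : N}
    (h0 : y0 ^ 2 = aeval x0 f) (h1 : y1 ^ 2 = aeval x1 f) :
    ∃ a b c : Fin 6 → k, (∀ j, a j ≠ 0 ∨ b j ≠ 0 ∨ c j ≠ 0) ∧ (y0 * y1) ^ 2 =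
      ∏ j, (algebraMap k N (a j) + algebraMap k N (b j) * (x0 + x1) + algebraMap k N (c j) * (x0 * x1)) := by
  obtain ⟨p, q, hpq, e⟩ := exists_fac 5 f hf hd
  refine ⟨fun j => q j ^ 2, fun j => p j * q j, fun j => p j ^ 2, ?_, ?_⟩
  · intro j
    rcases hpq j with h | h
    · exact Or.inr (Or.inr (pow_ne_zero 2 h))
    · exact Or.inl (pow_ne_zero 2 h)
  · rw [mul_pow, h0, h1, six_two e]

/-- the result for the third field of `Psi` -/
theorem six_psi2 [IsAlgClosed k] {f : k[X]} (hf : f ≠ 0) (hd : f.natDegree ≤ 5) {x0 x1 y0 y1 z : N}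
    (h0 : y0 ^ 2 = aeval x0 f) (h1 : y1 ^ 2 = aeval x1 f) {c0 c1 c2 : k} (hc : c0 ≠ 0 ∨ c1 ≠ 0 ∨ c2 ≠ 0)
    (hz : z ^ 2 = algebraMap k N c0 + algebraMap k N c1 * (x0 + x1) + algebraMap k N c2 * (x0 * x1)) :
    ∃ a b c : Fin 6 → k, (∀ j, a j ≠ 0 ∨ b j ≠ 0 ∨ c j ≠ 0) ∧ (y0 * y1 * z) ^ 2 =
      ∏ j, (algebraMap k N (a j) + algebraMap k N (b j) * (x0 + x1) + algebraMap k N (c j) * (x0 * x1)) := by
  obtain ⟨p, q, hpq, e⟩ := exists_fac 4 f hf hd
  refine ⟨Fin.cons c0 fun j => q j ^ 2, Fin.cons c1 fun j => p j * q j, Fin.cons c2 fun j => p j ^ 2, ?_, ?_⟩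
  · intro j
    refine Fin.cases ?_ ?_ j
    · simpa using hc
    · intro i
      simp only [Fin.cons_succ]
      rcases hpq i with h | h
      · exact Or.inr (Or.inr (pow_ne_zero 2 h))
      · exact Or.inl (pow_ne_zero 2 h)
  · rw [Fin.prod_univ_succ]
    simp only [Fin.cons_zero, Fin.cons_succ]
    rw [← six_two e, ← hz, mul_pow, mul_pow, h0, h1]
    ring

/-- the result for the third field of `Phi` -/
theorem six_phi2 [IsAlgClosed k] {f : k[X]} (hf : f ≠ 0) (hd : f.natDegree ≤ 6) {x0 x1 x2 y0 y1 y2 : N}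
    (h0 : y0 ^ 2 = aeval x0 f) (h1 : y1 ^ 2 = aeval x1 f) (h2 : y2 ^ 2 = aeval x2 f) (hy0 : y0 ≠ 0) (hy1 : y1 ≠ 0)
    (hy2 : y2 ≠ 0) {c0 c1 c2 c3 : k} (hc : c1 ≠ 0 ∨ c2 ≠ 0 ∨ c3 ≠ 0)
    (hrel : algebraMap k N c0 + algebraMap k N c1 * (x0 + x1 + x2) +
      algebraMap k N c2 * (x0 * x1 + x0 * x2 + x1 * x2) + algebraMap k N c3 * (x0 * x1 * x2) = 0) :
    ∃ (u v : N) (a b c : Fin 6 → k), (∀ j, a j ≠ 0 ∨ b j ≠ 0 ∨ c j ≠ 0) ∧
      (y0 * y1 * y2) ^ 2 = ∏ j, (algebraMap k N (a j) + algebraMap k N (b j) * u + algebraMap k N (c j) * v) ∧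
      adjoin k {x0 + x1 + x2, x0 * x1 + x0 * x2 + x1 * x2, x0 * x1 * x2, y0 * y1 * y2} = adjoin k {u, v, y0 * y1 * y2} := by
  obtain ⟨p, q, hpq, e⟩ := exists_fac 5 f hf hd
  set e1 := x0 + x1 + x2 with he1
  set e2 := x0 * x1 + x0 * x2 + x1 * x2 with he2
  set e3 := x0 * x1 * x2 with he3
  obtain ⟨u, v, A, B, D, hu, hv, g1, g2, g3⟩ : ∃ (u v : N) (A B D : Fin 3 → k), (u = e1 ∨ u = e2 ∨ u = e3) ∧
      (v = e1 ∨ v = e2 ∨ v = e3) ∧
      e1 = algebraMap k N (A 0) + algebraMap k N (B 0) * u + algebraMap k N (D 0) * v ∧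
      e2 = algebraMap k N (A 1) + algebraMap k N (B 1) * u + algebraMap k N (D 1) * v ∧
      e3 = algebraMap k N (A 2) + algebraMap k N (B 2) * u + algebraMap k N (D 2) * v := by
    rcases hc with h | h | h
    · have h' : algebraMap k N c1 ≠ 0 := (_root_.map_ne_zero _).mpr h
      refine ⟨e2, e3, ![-c0 / c1, 0, 0], ![-c2 / c1, 1, 0], ![-c3 / c1, 0, 1], by simp, by simp, ?_, by simp, by simp⟩
      simp only [Matrix.cons_val_zero, map_div₀, map_neg]
      field_simp
      linear_combination hrel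
    · have h' : algebraMap k N c2 ≠ 0 := (_root_.map_ne_zero _).mpr h
      refine ⟨e1, e3, ![0, -c0 / c2, 0], ![1, -c1 / c2, 0], ![0, -c3 / c2, 1], by simp, by simp, by simp, ?_, by simp⟩
      simp only [Matrix.cons_val_zero, Matrix.cons_val_one, map_div₀, map_neg]
      field_simp
      linear_combination hrel
    · have h' : algebraMap k N c3 ≠ 0 := (_root_.map_ne_zero _).mpr h
      refine ⟨e1, e2, ![0, 0, -c0 / c3], ![1, 0, -c1 / c3], ![0, 1, -c2 / c3], by simp, by simp, by simp, by simp, ?_⟩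
      change e3 = algebraMap k N (-c0 / c3) + algebraMap k N (-c1 / c3) * e1 + algebraMap k N (-c2 / c3) * e2
      simp only [map_div₀, map_neg]
      field_simp
      linear_combination hrel
  have hw : (y0 * y1 * y2) ^ 2 = ∏ j, (algebraMap k N (q j ^ 3 + p j * q j ^ 2 * A 0 + p j ^ 2 * q j * A 1 + p j ^ 3 * A 2) +
      algebraMap k N (p j * q j ^ 2 * B 0 + p j ^ 2 * q j * B 1 + p j ^ 3 * B 2) * u +
      algebraMap k N (p j * q j ^ 2 * D 0 + p j ^ 2 * q j * D 1 + p j ^ 3 * D 2) * v) := by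
    rw [mul_pow, mul_pow, h0, h1, h2, six_three e]
    refine Finset.prod_congr rfl fun j _ => ?_
    rw [← he1, ← he2, ← he3]
    simp only [map_add, map_mul, map_pow]
    linear_combination (algebraMap k N (p j) * algebraMap k N (q j) ^ 2) * g1 +
      (algebraMap k N (p j) ^ 2 * algebraMap k N (q j)) * g2 + algebraMap k N (p j) ^ 3 * g3
  refine ⟨u, v, _, _, _, ?_, hw, ?_⟩
  · intro j
    by_contra hcon
    push Not at hcon
    obtain ⟨z1, z2, z3⟩ := hcon
    have h3 : (y0 * y1 * y2) ^ 2 = 0 := by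
      rw [hw]
      refine Finset.prod_eq_zero (Finset.mem_univ j) ?_
      rw [z1, z2, z3]
      simp
    exact pow_ne_zero 2 (mul_ne_zero (mul_ne_zero hy0 hy1) hy2) h3
  · refine le_antisymm ?_ ?_
    · rw [adjoin_le_iff]
      have mu : u ∈ adjoin k ({u, v, y0 * y1 * y2} : Set N) := subset_adjoin k _ (by simp)
      have mv : v ∈ adjoin k ({u, v, y0 * y1 * y2} : Set N) := subset_adjoin k _ (by simp)
      rintro s (rfl | rfl | rfl | rfl)
      · rw [g1]
        exact mem_lin mu mv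
      · rw [g2]
        exact mem_lin mu mv
      · rw [g3]
        exact mem_lin mu mv
      · exact subset_adjoin k _ (by simp)
    · rw [adjoin_le_iff]
      rintro s (rfl | rfl | rfl)
      · rcases hu with rfl | rfl | rfl <;> exact subset_adjoin k _ (by simp)
      · rcases hv with rfl | rfl | rfl <;> exact subset_adjoin k _ (by simp)
      · exact subset_adjoin k _ (by simp)

end

end Pool.Agent.Helper67.IR
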