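import Mathlib
import Pool.Agent.Helper15.GT.Ruled2
import Pool.Agent.Helper67.IR.Deg
import Pool.Agent.Helper67.IR.Fix

/-!
# IRR (MP_83b46e_ag), clause (4), block [I]: the first fixed fields are function fields of ruled surfaces
-/

set_option autoImplicit false

namespace Pool.Agent.Helper67.IR

open Polynomial IntermediateField Pool.Agent.Helper15.GT VC

universe u

section

variable {k N : Type u} [Field k] [Field N] [Algebra k N]

/-- generation of a subfield -/
lemma adjoin_sub {L : IntermediateField k N} {S : Set L} (h : L ≤ adjoin k ((fun s : L => (s : N)) '' S)) :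
    adjoin k S = ⊤ := by
  rw [eq_top_iff]
  intro z _
  have h1 : (adjoin k S).map L.val = adjoin k (L.val '' S) := adjoin_map k S L.val
  have h2 : (z : N) ∈ (adjoin k S).map L.val := by
    rw [h1]
    exact h z.2
  obtain ⟨z', hz', e⟩ := (IntermediateField.mem_map _).mp h2
  have e' : z' = z := Subtype.ext e
  rwa [← e']

/-- the function field of a double cover of the line -/
lemma isFF_gen {x0 y0 : N} {f : k[X]} (hx : Transcendental k x0) (h0 : y0 ^ 2 = aeval x0 f)
    (hgen : adjoin k ({x0, y0} : Set N) = ⊤) : IsFunctionField k N := by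
  refine ⟨x0, hx, ?_⟩
  have h1 : Bd (adjoin k ({x0} : Set N)) (2 * 1) := by
    refine bd_sqrt (m := 1) y0 ?_ ?_
    · rw [h0]
      exact aeval_mem' (mem_adjoin_simple_self k x0) f
    · have hT : adjoin k ({x0} : Set N) ⊔ adjoin k {y0} = ⊤ := by
        rw [← adjoin_union]
        exact hgen
      rw [hT]
      exact bd_top
  exact h1.1

lemma coe_aeval {L : IntermediateField k N} (x : L) (f : k[X]) : ((aeval x f : L) : N) = aeval (x : N) f :=
  (aeval_algebraMap_apply N x f).symm

lemma isFF {x0 y0 : N} {f : k[X]} (hx : Transcendental k x0) (h0 : y0 ^ 2 = aeval x0 f) :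
    IsFunctionField k (adjoin k ({x0, y0} : Set N)) := by
  have m1 : x0 ∈ adjoin k ({x0, y0} : Set N) := subset_adjoin k _ (by simp)
  have m2 : y0 ∈ adjoin k ({x0, y0} : Set N) := subset_adjoin k _ (by simp)
  obtain ⟨x', hx'⟩ : ∃ x' : adjoin k ({x0, y0} : Set N), (x' : N) = x0 := ⟨⟨x0, m1⟩, rfl⟩
  obtain ⟨y', hy'⟩ : ∃ y' : adjoin k ({x0, y0} : Set N), (y' : N) = y0 := ⟨⟨y0, m2⟩, rfl⟩
  refine isFF_gen (x0 := x') (y0 := y') (f := f) ?_ ?_ ?_
  · rintro ⟨p, hp, e⟩
    refine hx ⟨p, hp, ?_⟩
    rw [← hx', ← coe_aeval, e]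
    rfl
  · apply Subtype.ext
    rw [coe_aeval, hx', ← h0]
    change (y' : N) ^ 2 = y0 ^ 2
    rw [hy']
  · refine adjoin_sub ?_
    rw [adjoin_le_iff]
    rintro s (rfl | rfl)
    · exact subset_adjoin k _ ⟨x', Or.inl rfl, hx'⟩
    · exact subset_adjoin k _ ⟨y', Or.inr rfl, hy'⟩

variable [IsAlgClosed k] [CharZero k]

/-- `k (x, y, t)` with `y ^ 2 = f (x)` -/
theorem vpj_ruled' {x0 y0 t : N} {f : k[X]} (hx : Transcendental k x0) (h0 : y0 ^ 2 = aeval x0 f) :
    VPJ k (adjoin k ({x0, y0, t} : Set N)) 0 := by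
  have hle : adjoin k ({x0, y0} : Set N) ≤ adjoin k ({x0, y0, t} : Set N) :=
    adjoin.mono k _ _ (by rintro s (rfl | rfl) <;> simp)
  have mt : t ∈ adjoin k ({x0, y0, t} : Set N) := subset_adjoin k _ (by simp)
  refine vpj_ruled (isFF hx h0) (inclusion hle) ⟨t, mt⟩ (adjoin_sub ?_)
  rw [adjoin_le_iff]
  have m1 : x0 ∈ adjoin k ({x0, y0} : Set N) := subset_adjoin k _ (by simp)
  have m2 : y0 ∈ adjoin k ({x0, y0} : Set N) := subset_adjoin k _ (by simp)
  rintro s (rfl | rfl | rfl)
  · exact subset_adjoin k _ ⟨⟨s, hle m1⟩, Or.inl ⟨⟨s, m1⟩, rfl⟩, rfl⟩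
  · exact subset_adjoin k _ ⟨⟨s, hle m2⟩, Or.inl ⟨⟨s, m2⟩, rfl⟩, rfl⟩
  · exact subset_adjoin k _ ⟨⟨s, mt⟩, Or.inr rfl, rfl⟩

omit [IsAlgClosed k] [CharZero k] in
/-- linear forms in a transcendental element -/
lemma lin_zero {x0 : N} (hx : Transcendental k x0) {a b : k}
    (h : algebraMap k N a + algebraMap k N b * x0 = 0) : a = 0 ∧ b = 0 := by
  have h1 : aeval x0 (C a + C b * X) = 0 := by
    simpa using h
  have h2 : C a + C b * X = 0 := by
    by_contra hcon
    exact hx ⟨_, hcon, h1⟩
  have h3 := congrArg (fun p => coeff p 0) h2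
  have h4 := congrArg (fun p => coeff p 1) h2
  simp at h3 h4
  exact ⟨h3, h4⟩

/-- `Phi`, the first field -/
theorem vpj_phi0 {x0 x1 x2 y0 : N} {f : k[X]} (hx : Transcendental k x0) (h0 : y0 ^ 2 = aeval x0 f)
    {c0 c1 c2 c3 : k} (hc : c1 ≠ 0 ∨ c2 ≠ 0 ∨ c3 ≠ 0)
    (hrel : algebraMap k N c0 + algebraMap k N c1 * (x0 + x1 + x2) +
      algebraMap k N c2 * (x0 * x1 + x0 * x2 + x1 * x2) + algebraMap k N c3 * (x0 * x1 * x2) = 0) :
    VPJ k (adjoin k ({x0, y0, x1 + x2, x1 * x2} : Set N)) 0 := by
  have hkey : ∃ t, adjoin k ({x0, y0, x1 + x2, x1 * x2} : Set N) = adjoin k {x0, y0, t} := by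
    have hrel' : (algebraMap k N c0 + algebraMap k N c1 * x0) + (algebraMap k N c1 + algebraMap k N c2 * x0) * (x1 + x2) +
        (algebraMap k N c2 + algebraMap k N c3 * x0) * (x1 * x2) = 0 := by
      linear_combination hrel
    by_cases h1 : algebraMap k N c2 + algebraMap k N c3 * x0 = 0
    · by_cases h2 : algebraMap k N c1 + algebraMap k N c2 * x0 = 0
      · obtain ⟨h3, h4⟩ := lin_zero hx h1
        obtain ⟨h5, -⟩ := lin_zero hx h2
        rcases hc with h | h | h
        · exact absurd h5 h
        · exact absurd h3 h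
        · exact absurd h4 h
      · refine ⟨x1 * x2, le_antisymm ?_ (adjoin.mono k _ _ (by rintro s (rfl | rfl | rfl) <;> simp))⟩
        rw [adjoin_le_iff]
        have m1 : x0 ∈ adjoin k ({x0, y0, x1 * x2} : Set N) := subset_adjoin k _ (by simp)
        rintro s (rfl | rfl | rfl | rfl)
        · exact m1
        · exact subset_adjoin k _ (by simp)
        · have e : x1 + x2 = -(algebraMap k N c0 + algebraMap k N c1 * x0) /
              (algebraMap k N c1 + algebraMap k N c2 * x0) := by
            rw [eq_div_iff h2]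
            linear_combination hrel' - h1 * (x1 * x2)
          rw [e]
          exact IntermediateField.div_mem _ (IntermediateField.neg_mem _ (IntermediateField.add_mem _
            (IntermediateField.algebraMap_mem _ _) (IntermediateField.mul_mem _ (IntermediateField.algebraMap_mem _ _) m1)))
            (IntermediateField.add_mem _ (IntermediateField.algebraMap_mem _ _)
              (IntermediateField.mul_mem _ (IntermediateField.algebraMap_mem _ _) m1))
        · exact subset_adjoin k _ (by simp)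
    · refine ⟨x1 + x2, le_antisymm ?_ (adjoin.mono k _ _ (by rintro s (rfl | rfl | rfl) <;> simp))⟩
      rw [adjoin_le_iff]
      have m1 : x0 ∈ adjoin k ({x0, y0, x1 + x2} : Set N) := subset_adjoin k _ (by simp)
      have m2 : x1 + x2 ∈ adjoin k ({x0, y0, x1 + x2} : Set N) := subset_adjoin k _ (by simp)
      rintro s (rfl | rfl | rfl | rfl)
      · exact m1
      · exact subset_adjoin k _ (by simp)
      · exact m2
      · have e : x1 * x2 = -((algebraMap k N c0 + algebraMap k N c1 * x0) +
            (algebraMap k N c1 + algebraMap k N c2 * x0) * (x1 + x2)) /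
              (algebraMap k N c2 + algebraMap k N c3 * x0) := by
          rw [eq_div_iff h1]
          linear_combination hrel'
        rw [e]
        have hm : ∀ a b : k, algebraMap k N a + algebraMap k N b * x0 ∈ adjoin k ({x0, y0, x1 + x2} : Set N) := fun a b =>
          IntermediateField.add_mem _ (IntermediateField.algebraMap_mem _ _)
            (IntermediateField.mul_mem _ (IntermediateField.algebraMap_mem _ _) m1)
        exact IntermediateField.div_mem _ (IntermediateField.neg_mem _ (IntermediateField.add_mem _ (hm _ _)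
          (IntermediateField.mul_mem _ (hm _ _) m2))) (hm _ _)
  obtain ⟨t, ht⟩ := hkey
  rw [ht]
  exact vpj_ruled' hx h0

/-- `Psi`, the first field -/
theorem vpj_psi0 {x0 x1 y0 z : N} {f : k[X]} (hx : Transcendental k x0) (h0 : y0 ^ 2 = aeval x0 f)
    {c0 c1 c2 : k} (hz : z ^ 2 = algebraMap k N c0 + algebraMap k N c1 * (x0 + x1) + algebraMap k N c2 * (x0 * x1)) :
    VPJ k (adjoin k ({x0, x1, y0, z} : Set N)) 0 := by
  have hkey : ∃ t, adjoin k ({x0, x1, y0, z} : Set N) = adjoin k {x0, y0, t} := by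
    by_cases h1 : algebraMap k N c1 + algebraMap k N c2 * x0 = 0
    · obtain ⟨rfl, rfl⟩ := lin_zero hx h1
      obtain ⟨d, hd⟩ := IsAlgClosed.exists_pow_nat_eq c0 (n := 2) two_pos
      have hzd : z = algebraMap k N d ∨ z = - algebraMap k N d := by
        apply sq_eq_sq_iff_eq_or_eq_neg.mp
        rw [hz, ← map_pow, hd]
        simp
      refine ⟨x1, le_antisymm ?_ (adjoin.mono k _ _ (by rintro s (rfl | rfl | rfl) <;> simp))⟩
      rw [adjoin_le_iff]
      rintro s (rfl | rfl | rfl | rfl)
      · exact subset_adjoin k _ (by simp)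
      · exact subset_adjoin k _ (by simp)
      · exact subset_adjoin k _ (by simp)
      · rcases hzd with h | h <;> rw [h]
        · exact IntermediateField.algebraMap_mem _ _
        · exact IntermediateField.neg_mem _ (IntermediateField.algebraMap_mem _ _)
    · refine ⟨z, le_antisymm ?_ (adjoin.mono k _ _ (by rintro s (rfl | rfl | rfl) <;> simp))⟩
      rw [adjoin_le_iff]
      have m1 : x0 ∈ adjoin k ({x0, y0, z} : Set N) := subset_adjoin k _ (by simp)
      have m2 : z ∈ adjoin k ({x0, y0, z} : Set N) := subset_adjoin k _ (by simp)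
      have hm : ∀ a b : k, algebraMap k N a + algebraMap k N b * x0 ∈ adjoin k ({x0, y0, z} : Set N) := fun a b =>
        IntermediateField.add_mem _ (IntermediateField.algebraMap_mem _ _)
          (IntermediateField.mul_mem _ (IntermediateField.algebraMap_mem _ _) m1)
      rintro s (rfl | rfl | rfl | rfl)
      · exact m1
      · have e : s = (z ^ 2 - (algebraMap k N c0 + algebraMap k N c1 * x0)) /
            (algebraMap k N c1 + algebraMap k N c2 * x0) := by
          rw [eq_div_iff h1]
          linear_combination -hz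
        rw [e]
        exact IntermediateField.div_mem _ (IntermediateField.sub_mem _ (pow_mem m2 2) (hm _ _)) (hm _ _)
      · exact subset_adjoin k _ (by simp)
      · exact m2
  obtain ⟨t, ht⟩ := hkey
  rw [ht]
  exact vpj_ruled' hx h0

end

end Pool.Agent.Helper67.IR
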