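import Mathlib
import Pool.Agent.Helper67.IR.FixG
import Pool.Agent.Helper79.B4.Defs

/-!
# IRR (MP_83b46e_ag), clause (4): the certificates (blocks C3, C2)
-/

set_option autoImplicit false

namespace Pool.Agent.Helper67.IR

open Polynomial IntermediateField Equiv Pool.Agent.Helper79.B4

universe u

section

variable {k N : Type u} [Field k] [Field N] [Algebra k N]

lemma phi_eq {D : Phi k N} {π : Perm (Fin 3)} {ε : Fin 3 → ℤˣ} {σ τ : N ≃ₐ[k] N} (h : D.Acts π ε σ)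
    (h' : D.Acts π ε τ) : σ = τ := by
  refine ext_of_gen D.hgen ?_
  rintro s (⟨i, rfl⟩ | ⟨i, rfl⟩)
  · rw [(h i).1, (h' i).1]
  · rw [(h i).2, (h' i).2]

lemma psi_eq {D : Psi k N} {π : Perm (Fin 2)} {ε : Fin 2 → ℤˣ} {δ : ℤˣ} {σ τ : N ≃ₐ[k] N} (h : D.Acts π ε δ σ)
    (h' : D.Acts π ε δ τ) : σ = τ := by
  refine ext_of_gen D.hgen ?_
  rintro s ((⟨i, rfl⟩ | ⟨i, rfl⟩) | rfl)
  · rw [(h.1 i).1, (h'.1 i).1]
  · rw [(h.1 i).2, (h'.1 i).2]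
  · rw [h.2, h'.2]

/-- the three groups -/
def PG (D : Phi k N) (i : Fin 3) : Subgroup (N ≃ₐ[k] N) := if i = 0 then D.G1 else if i = 1 then D.G2 else D.G3

def SG (D : Psi k N) (i : Fin 3) : Subgroup (N ≃ₐ[k] N) := if i = 0 then D.G1 else if i = 1 then D.G2 else D.G3

lemma mem_PG (D : Phi k N) {T : Perm (Fin 3) → (Fin 3 → ℤˣ) → (N ≃ₐ[k] N)} (hT : ∀ π ε, D.Acts π ε (T π ε))
    (i : Fin 3) (g : N ≃ₐ[k] N) : g ∈ PG D i ↔ ∃ p ∈ grpPhi i, T p.1 p.2 = g := by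
  fin_cases i
  · change (∃ π ε, D.Acts π ε g ∧ π 0 = 0 ∧ ε 0 = 1) ↔ ∃ p ∈ grpPhi 0, T p.1 p.2 = g
    constructor
    · rintro ⟨π, ε, h, h1, h2⟩
      exact ⟨(π, ε), by simp [grpPhi, h1, h2], phi_eq (hT π ε) h⟩
    · rintro ⟨⟨π, ε⟩, h, rfl⟩
      have h' : π 0 = 0 ∧ ε 0 = 1 := by simpa [grpPhi] using h
      exact ⟨π, ε, hT π ε, h'⟩
  · change (∃ π ε, D.Acts π ε g ∧ π 2 = 2 ∧ ε 0 * ε 1 = 1) ↔ ∃ p ∈ grpPhi 1, T p.1 p.2 = g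
    constructor
    · rintro ⟨π, ε, h, h1, h2⟩
      exact ⟨(π, ε), by simp [grpPhi, h1, h2], phi_eq (hT π ε) h⟩
    · rintro ⟨⟨π, ε⟩, h, rfl⟩
      have h' : π 2 = 2 ∧ ε 0 * ε 1 = 1 := by simpa [grpPhi] using h
      exact ⟨π, ε, hT π ε, h'⟩
  · change (∃ π ε, D.Acts π ε g ∧ ∏ i, ε i = 1) ↔ ∃ p ∈ grpPhi 2, T p.1 p.2 = g
    constructor
    · rintro ⟨π, ε, h, h1⟩
      rw [Fin.prod_univ_three] at h1
      exact ⟨(π, ε), by simp [grpPhi, h1], phi_eq (hT π ε) h⟩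
    · rintro ⟨⟨π, ε⟩, h, rfl⟩
      have h' : ε 0 * ε 1 * ε 2 = 1 := by simpa [grpPhi] using h
      exact ⟨π, ε, hT π ε, by rw [Fin.prod_univ_three]; exact h'⟩

lemma mem_SG (D : Psi k N) {T : Perm (Fin 2) → (Fin 2 → ℤˣ) → ℤˣ → (N ≃ₐ[k] N)} (hT : ∀ π ε δ, D.Acts π ε δ (T π ε δ))
    (i : Fin 3) (g : N ≃ₐ[k] N) : g ∈ SG D i ↔ ∃ p ∈ grpPsi i, T p.1 p.2.1 p.2.2 = g := by
  fin_cases i
  · change (∃ ε, D.Acts 1 ε 1 g ∧ ε 0 = 1) ↔ ∃ p ∈ grpPsi 0, T p.1 p.2.1 p.2.2 = g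
    constructor
    · rintro ⟨ε, h, h1⟩
      exact ⟨(1, ε, 1), by simp [grpPsi, h1], psi_eq (hT 1 ε 1) h⟩
    · rintro ⟨⟨π, ε, δ⟩, h, rfl⟩
      have h' : π = 1 ∧ ε 0 = 1 ∧ δ = 1 := by simpa [grpPsi] using h
      obtain ⟨rfl, h2, rfl⟩ := h'
      exact ⟨ε, hT 1 ε 1, h2⟩
  · change (∃ π ε δ, D.Acts π ε δ g ∧ ∏ i, ε i = 1) ↔ ∃ p ∈ grpPsi 1, T p.1 p.2.1 p.2.2 = g
    constructor
    · rintro ⟨π, ε, δ, h, h1⟩
      rw [Fin.prod_univ_two] at h1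
      exact ⟨(π, ε, δ), by simp [grpPsi, h1], psi_eq (hT π ε δ) h⟩
    · rintro ⟨⟨π, ε, δ⟩, h, rfl⟩
      have h' : ε 0 * ε 1 = 1 := by simpa [grpPsi] using h
      exact ⟨π, ε, δ, hT π ε δ, by rw [Fin.prod_univ_two]; exact h'⟩
  · change (∃ π ε δ, D.Acts π ε δ g ∧ (∏ i, ε i) * δ = 1) ↔ ∃ p ∈ grpPsi 2, T p.1 p.2.1 p.2.2 = g
    constructor
    · rintro ⟨π, ε, δ, h, h1⟩
      rw [Fin.prod_univ_two] at h1
      exact ⟨(π, ε, δ), by simp [grpPsi, h1], psi_eq (hT π ε δ) h⟩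
    · rintro ⟨⟨π, ε, δ⟩, h, rfl⟩
      have h' : ε 0 * ε 1 * δ = 1 := by simpa [grpPsi] using h
      exact ⟨π, ε, δ, hT π ε δ, by rw [Fin.prod_univ_two]; exact h'⟩

end

/-- block C3 from the injectivity of `T` -/
theorem c3_of {k N : Type u} [Field k] [CharZero k] [Field N] [Algebra k N] (D : Phi k N) [Fintype D.G1]
    [Fintype D.G2] [Fintype D.G3] (hA : ∀ (π : Equiv.Perm (Fin 3)) (ε : Fin 3 → ℤˣ), ∃ σ, D.Acts π ε σ)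
    (hxi : Function.Injective D.x) (hy0 : ∀ i, D.y i ≠ 0) :
    ∃ (d : ℕ) (c1 c2 c3 : (N ≃ₐ[k] N) →₀ ℤ), 0 < d ∧ ∀ (M : Type u) [AddCommGroup M] (A : (N ≃ₐ[k] N) → M),
      (∀ g, ∀ η ∈ D.H, A (g * η) = A g) → (d : ℤ) • A 1 = (c1.sum fun h z => z • ∑ γ : D.G1, A (h * γ)) +
        (c2.sum fun h z => z • ∑ γ : D.G2, A (h * γ)) + (c3.sum fun h z => z • ∑ γ : D.G3, A (h * γ)) := by
  classical
  have hN : CharZero N := charZero_of_injective_algebraMap (algebraMap k N).injective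
  choose T hT using hA
  have hx : ∀ π ε i, T π ε (D.x i) = D.x (π i) := fun π ε i => (hT π ε i).1
  have hy : ∀ π ε i, T π ε (D.y i) = sg (ε i) * D.y (π i) := fun π ε i => (hT π ε i).2
  have hmul := mul_rule D.hgen hx hy
  have hinj : ∀ i, Set.InjOn (fun p : Perm (Fin 3) × (Fin 3 → ℤˣ) => T p.1 p.2) (grpPhi i : Set _) := by
    intro i p _ q _ h
    obtain ⟨h1, h2⟩ := inj_rule hxi hy0 hx hy _ _ _ _ h
    exact Prod.ext h1 h2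
  refine ⟨48, cof genPhi (fun x => T x.1 x.2) 0, cof genPhi (fun x => T x.1 x.2) 1, cof genPhi (fun x => T x.1 x.2) 2,
    by norm_num, ?_⟩
  intro M _ A hAH
  have h1 := cert_phi T hmul A fun g π => hAH g _ ⟨π, hT π 1⟩
  have h2 := sum_cof genPhi (fun x => T x.1 x.2) fun i h => ∑ p ∈ grpPhi i, A (h * T p.1 p.2)
  rw [← h2, Fin.sum_univ_three] at h1
  have e1 : ∀ h, ∑ γ : D.G1, A (h * γ) = ∑ p ∈ grpPhi 0, A (h * T p.1 p.2) := fun h =>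
    sum_subgroup D.G1 (grpPhi 0) (fun p => T p.1 p.2) (hinj 0) (mem_PG D hT 0) A h
  have e2 : ∀ h, ∑ γ : D.G2, A (h * γ) = ∑ p ∈ grpPhi 1, A (h * T p.1 p.2) := fun h =>
    sum_subgroup D.G2 (grpPhi 1) (fun p => T p.1 p.2) (hinj 1) (mem_PG D hT 1) A h
  have e3 : ∀ h, ∑ γ : D.G3, A (h * γ) = ∑ p ∈ grpPhi 2, A (h * T p.1 p.2) := fun h =>
    sum_subgroup D.G3 (grpPhi 2) (fun p => T p.1 p.2) (hinj 2) (mem_PG D hT 2) A h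
  simp only [e1, e2, e3]
  exact_mod_cast h1

/-- block C2 from the injectivity of `T` -/
theorem c2_of {k N : Type u} [Field k] [CharZero k] [Field N] [Algebra k N] (D : Psi k N) [Fintype D.G1]
    [Fintype D.G2] [Fintype D.G3]
    (hA : ∀ (π : Equiv.Perm (Fin 2)) (ε : Fin 2 → ℤˣ) (δ : ℤˣ), ∃ σ, D.Acts π ε δ σ)
    (hxi : Function.Injective D.x) (hy0 : ∀ i, D.y i ≠ 0) (hw0 : D.w ≠ 0) :
    ∃ (d : ℕ) (c1 c2 c3 : (N ≃ₐ[k] N) →₀ ℤ), 0 < d ∧ ∀ (M : Type u) [AddCommGroup M] (A : (N ≃ₐ[k] N) → M),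
      (∀ g, ∀ η ∈ D.H, A (g * η) = A g) → (d : ℤ) • A 1 = (c1.sum fun h z => z • ∑ γ : D.G1, A (h * γ)) +
        (c2.sum fun h z => z • ∑ γ : D.G2, A (h * γ)) + (c3.sum fun h z => z • ∑ γ : D.G3, A (h * γ)) := by
  classical
  have hN : CharZero N := charZero_of_injective_algebraMap (algebraMap k N).injective
  choose T hT using hA
  have hx : ∀ π ε δ i, T π ε δ (D.x i) = D.x (π i) := fun π ε δ i => ((hT π ε δ).1 i).1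
  have hy : ∀ π ε δ i, T π ε δ (D.y i) = sg (ε i) * D.y (π i) := fun π ε δ i => ((hT π ε δ).1 i).2
  have hz : ∀ π ε δ, T π ε δ D.w = sg δ * D.w := fun π ε δ => (hT π ε δ).2
  have hmul := mul_rule' D.hgen hx hy hz
  have hinj : ∀ i, Set.InjOn (fun p : Perm (Fin 2) × (Fin 2 → ℤˣ) × ℤˣ => T p.1 p.2.1 p.2.2) (grpPsi i : Set _) := by
    intro i p _ q _ h
    obtain ⟨h1, h2, h3⟩ := inj_rule' hxi hy0 hw0 hx hy hz _ _ _ _ _ _ h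
    exact Prod.ext h1 (Prod.ext h2 h3)
  refine ⟨16, cof genPsi (fun x => T x.1 x.2.1 x.2.2) 0, cof genPsi (fun x => T x.1 x.2.1 x.2.2) 1,
    cof genPsi (fun x => T x.1 x.2.1 x.2.2) 2, by norm_num, ?_⟩
  intro M _ A hAH
  have h1 := cert_psi T hmul A fun g π => hAH g _ ⟨π, hT π 1 1⟩
  have h2 := sum_cof genPsi (fun x => T x.1 x.2.1 x.2.2) fun i h => ∑ p ∈ grpPsi i, A (h * T p.1 p.2.1 p.2.2)
  rw [← h2, Fin.sum_univ_three] at h1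
  have e1 : ∀ h, ∑ γ : D.G1, A (h * γ) = ∑ p ∈ grpPsi 0, A (h * T p.1 p.2.1 p.2.2) := fun h =>
    sum_subgroup D.G1 (grpPsi 0) (fun p => T p.1 p.2.1 p.2.2) (hinj 0) (mem_SG D hT 0) A h
  have e2 : ∀ h, ∑ γ : D.G2, A (h * γ) = ∑ p ∈ grpPsi 1, A (h * T p.1 p.2.1 p.2.2) := fun h =>
    sum_subgroup D.G2 (grpPsi 1) (fun p => T p.1 p.2.1 p.2.2) (hinj 1) (mem_SG D hT 1) A h
  have e3 : ∀ h, ∑ γ : D.G3, A (h * γ) = ∑ p ∈ grpPsi 2, A (h * T p.1 p.2.1 p.2.2) := fun h =>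
    sum_subgroup D.G3 (grpPsi 2) (fun p => T p.1 p.2.1 p.2.2) (hinj 2) (mem_SG D hT 2) A h
  simp only [e1, e2, e3]
  exact_mod_cast h1

end Pool.Agent.Helper67.IR
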