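import Mathlib
import Pool.Agent.Helper67.IR.WC
import Pool.Agent.Helper67.IR.Rul
import Pool.Agent.Helper67.IR.Six
import Pool.Agent.Helper98.IR.Pair
import Pool.Agent.Helper70.B4.Sext

/-!
# IRR (MP_83b46e_ag), clause (4): blocks C3, C2, I3
-/

set_option autoImplicit false

namespace Pool.Agent.Helper67.IR

open Polynomial IntermediateField Equiv Pool.Agent.Helper79.B4 Pool.Agent.Helper15.GT

universe u

section

variable {k N : Type u} [Field k] [Field N] [Algebra k N]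

lemma prod_ne {n : ℕ} {x : N} (hx : Transcendental k x) (a : Fin n → k) : ∏ j, (x - algebraMap k N (a j)) ≠ 0 := by
  refine Finset.prod_ne_zero_iff.mpr fun j _ h => ?_
  rw [sub_eq_zero] at h
  rw [h] at hx
  exact hx (isAlgebraic_algebraMap _)

lemma aeval_prod' {n : ℕ} (x : N) (a : Fin n → k) :
    aeval x (∏ j, (X - C (a j))) = ∏ j, (x - algebraMap k N (a j)) := by
  rw [map_prod]
  simp

lemma ne_of_ind {u v : N} (h : AlgebraicIndependent k ![u, v]) : u ≠ v := by
  intro e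
  have h1 := h.injective (a₁ := 0) (a₂ := 1) e
  exact absurd h1 (by decide)

lemma exists_perm : ∀ i j : Fin 3, i ≠ j → ∃ π : Perm (Fin 3), π i = 0 ∧ π j = 1 := by
  decide +kernel

lemma phi_nd (D : Phi k N) (hA : ∀ (π : Equiv.Perm (Fin 3)) (ε : Fin 3 → ℤˣ), ∃ σ, D.Acts π ε σ) :
    Function.Injective D.x ∧ ∀ i, D.y i ≠ 0 := by
  have h01 : D.x 0 ≠ D.x 1 := ne_of_ind D.hx
  have key : ∀ i j : Fin 3, i ≠ j → D.x i ≠ D.x j := by
    intro i j hij e
    obtain ⟨π, h0, h1⟩ := exists_perm i j hij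
    obtain ⟨σ, hσ⟩ := hA π 1
    have e1 := congrArg σ e
    rw [(hσ i).1, (hσ j).1, h0, h1] at e1
    exact h01 e1
  refine ⟨fun i j e => by_contra fun hij => key i j hij e, ?_⟩
  have hy : D.y 0 ≠ 0 := by
    intro h
    have h1 := D.hy 0
    rw [h, zero_pow two_ne_zero] at h1
    exact prod_ne (D.hx.transcendental 0) D.a h1.symm
  intro i h
  obtain ⟨σ, hσ⟩ := hA (swap i 0) 1
  have e1 := congrArg σ h
  rw [(hσ i).2, map_zero, swap_apply_left] at e1
  simp only [Pi.one_apply, Units.val_one, Int.cast_one, one_mul] at e1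
  exact hy e1

lemma psi_nd (D : Psi k N) : Function.Injective D.x ∧ (∀ i, D.y i ≠ 0) ∧ D.w ≠ 0 := by
  have h01 : D.x 0 ≠ D.x 1 := ne_of_ind D.hx
  refine ⟨?_, ?_, ?_⟩
  · intro i j e
    by_contra hij
    fin_cases i <;> fin_cases j
    · exact hij rfl
    · exact h01 e
    · exact h01 e.symm
    · exact hij rfl
  · intro i h
    have h1 := D.hy i
    rw [h, zero_pow two_ne_zero] at h1
    refine prod_ne ?_ D.a h1.symm
    fin_cases i
    · exact D.hx.transcendental 0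
    · exact D.hx.transcendental 1
  · intro h
    have hgen : adjoin k ({D.x 0, D.x 1, D.y 0, D.y 1} : Set N) = ⊤ := by
      refine eq_top_of D.hgen ?_
      rintro s ((⟨i, rfl⟩ | ⟨i, rfl⟩) | rfl)
      · refine subset_adjoin k _ ?_
        fin_cases i <;> simp
      · refine subset_adjoin k _ ?_
        fin_cases i <;> simp
      · rw [h]
        exact zero_mem _
    have hb : Bd (adjoin k ({D.x 0, D.x 1} : Set N)) (2 * (2 * 1)) := by
      have m0 : D.x 0 ∈ adjoin k ({D.x 0, D.x 1} : Set N) := subset_adjoin k _ (by simp)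
      have m1 : D.x 1 ∈ adjoin k ({D.x 0, D.x 1} : Set N) := subset_adjoin k _ (by simp)
      refine bd_sqrt (D.y 0) ?_ (bd_sqrt (D.y 1) ?_ ?_)
      · rw [D.hy 0, ← aeval_prod']
        exact aeval_mem' m0 _
      · rw [D.hy 1, ← aeval_prod']
        exact aeval_mem' (mem_sup_left' m1) _
      · have hT : adjoin k ({D.x 0, D.x 1} : Set N) ⊔ adjoin k {D.y 0} ⊔ adjoin k {D.y 1} = ⊤ := by
          refine eq_top_of hgen ?_
          rintro s (rfl | rfl | rfl | rfl)
          · exact mem_sup_left' (mem_sup_left' m0)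
          · exact mem_sup_left' (mem_sup_left' m1)
          · exact mem_sup_left' (mem_sup_self _ _)
          · exact mem_sup_self _ _
        rw [hT]
        exact bd_top
    have h8 := D.hdeg
    have h9 := hb.2
    omega

end

theorem c3 : StmtC3.{u} := by
  intro k N _ _ _ _ _ D _ _ _ hA
  obtain ⟨h1, h2⟩ := phi_nd D hA
  exact c3_of D hA h1 h2

theorem c2 : StmtC2.{u} := by
  intro k N _ _ _ _ _ D _ _ _ hA
  obtain ⟨h1, h2, h3⟩ := psi_nd D
  exact c2_of D hA h1 h2 h3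

section

variable {k N : Type u} [Field k] [IsAlgClosed k] [CharZero k] [Field N] [Algebra k N]

/-- the double plane over six lines inside `N` -/
theorem vpj_six_sub {u v w s t : N} (hst : AlgebraicIndependent k ![s, t]) {m : ℕ}
    (hb : Bd (adjoin k ({u, v, w} : Set N)) m) {a b c : Fin 6 → k} (hl : ∀ j, a j ≠ 0 ∨ b j ≠ 0 ∨ c j ≠ 0)
    (hw : w ^ 2 = ∏ j, (algebraMap k N (a j) + algebraMap k N (b j) * u + algebraMap k N (c j) * v)) :
    VPJ k (adjoin k ({u, v, w} : Set N)) 1 := by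
  have hw2 : w ^ 2 ∈ adjoin k ({u, v} : Set N) := by
    have mu : u ∈ adjoin k ({u, v} : Set N) := subset_adjoin k _ (by simp)
    have mv : v ∈ adjoin k ({u, v} : Set N) := subset_adjoin k _ (by simp)
    rw [hw]
    exact prod_mem fun j _ => mem_lin mu mv
  have hb' : Bd (adjoin k ({u, v} : Set N)) (2 * m) := by
    refine bd_sqrt w hw2 ?_
    have e : adjoin k ({u, v} : Set N) ⊔ adjoin k {w} = adjoin k {u, v, w} := by
      rw [← adjoin_union]
      congr 1
      ext z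
      simp only [Set.union_singleton, Set.mem_insert_iff, Set.mem_singleton_iff]
      tauto
    rw [e]
    exact hb
  have hind : AlgebraicIndependent k ![u, v] := by
    have := hb'.1
    exact Pool.Agent.Helper70.KX.ind_of_gen hst inferInstance
  obtain ⟨u', hu'⟩ : ∃ u' : adjoin k ({u, v, w} : Set N), (u' : N) = u := ⟨⟨u, subset_adjoin k _ (by simp)⟩, rfl⟩
  obtain ⟨v', hv'⟩ : ∃ v' : adjoin k ({u, v, w} : Set N), (v' : N) = v := ⟨⟨v, subset_adjoin k _ (by simp)⟩, rfl⟩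
  obtain ⟨w', hw'⟩ : ∃ w' : adjoin k ({u, v, w} : Set N), (w' : N) = w := ⟨⟨w, subset_adjoin k _ (by simp)⟩, rfl⟩
  refine Pool.Agent.Helper70.B4.vpj_six (u := u') (v := v') (w := w') (fun j => ![a j, b j, c j]) ?_ ?_ ?_ ?_
  · intro j h
    have h0 := congrFun h 0
    have h1 := congrFun h 1
    have h2 := congrFun h 2
    simp only [Matrix.cons_val_zero, Matrix.cons_val_one, Pi.zero_apply] at h0 h1
    change c j = 0 at h2
    rcases hl j with h | h | h
    · exact h h0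
    · exact h h1
    · exact h h2
  · refine AlgebraicIndependent.of_comp (adjoin k ({u, v, w} : Set N)).val ?_
    have e : (adjoin k ({u, v, w} : Set N)).val ∘ ![u', v'] = ![u, v] := by
      funext i
      fin_cases i
      · exact hu'
      · exact hv'
    rw [e]
    exact hind
  · have hinj : Function.Injective (fun z : adjoin k ({u, v, w} : Set N) => (z : N)) := Subtype.val_injective
    apply hinj
    change ((w' ^ 2 : adjoin k ({u, v, w} : Set N)) : N) = ((∏ j, _ : adjoin k ({u, v, w} : Set N)) : N)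
    push_cast
    rw [hw', hw]
    refine Finset.prod_congr rfl fun j _ => ?_
    rw [hu', hv']
  · refine adjoin_sub ?_
    rw [adjoin_le_iff]
    rintro z (rfl | rfl | rfl)
    · exact subset_adjoin k _ ⟨u', Or.inl rfl, hu'⟩
    · exact subset_adjoin k _ ⟨v', Or.inr (Or.inl rfl), hv'⟩
    · exact subset_adjoin k _ ⟨w', Or.inr (Or.inr rfl), hw'⟩

/-- the fixed fields, first type -/
theorem i3' (D : Phi k N) (hA : ∀ (π : Equiv.Perm (Fin 3)) (ε : Fin 3 → ℤˣ), ∃ σ, D.Acts π ε σ) :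
    VPJ k (fixedField D.G1) 0 ∧ VPJ k (fixedField D.G2) 1 ∧ VPJ k (fixedField D.G3) 1 := by
  have hN : CharZero N := charZero_of_injective_algebraMap (algebraMap k N).injective
  obtain ⟨hxi, hy0⟩ := phi_nd D hA
  have hc := Pool.Agent.Helper98.IR.ne_of D.hc D.hφ
  have hx2 : D.x 2 ∈ adjoin k ({D.x 0, D.x 1} : Set N) := Pool.Agent.Helper98.IR.mem_of_rel D.hc D.hx D.hφ
  obtain ⟨f, hfd⟩ : ∃ f : k[X], f = ∏ j, (X - C (D.a j)) := ⟨_, rfl⟩
  have hf : ∀ i, D.y i ^ 2 = aeval (D.x i) f := by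
    intro i
    rw [D.hy i, hfd, aeval_prod']
  have hf0 : f ≠ 0 := by
    rw [hfd]
    exact Finset.prod_ne_zero_iff.mpr fun j _ => X_sub_C_ne_zero _
  have hfn : f.natDegree ≤ 6 := by
    rw [hfd]
    refine (natDegree_prod_le _ _).trans ?_
    simp
  have hx0 : Transcendental k (D.x 0) := D.hx.transcendental 0
  choose T hT using hA
  have hx : ∀ π ε i, T π ε (D.x i) = D.x (π i) := fun π ε i => (hT π ε i).1
  have hy : ∀ π ε i, T π ε (D.y i) = sg (ε i) * D.y (π i) := fun π ε i => (hT π ε i).2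
  obtain ⟨e1, e2, e3⟩ := fixed_phi hf D.hgen hxi hy0 hx2 hx hy (PG D) (mem_PG D hT)
  have e1' : fixedField D.G1 = adjoin k {D.x 0, D.y 0, D.x 1 + D.x 2, D.x 1 * D.x 2} := e1
  have e2' : fixedField D.G2 = adjoin k {D.x 0 + D.x 1, D.x 0 * D.x 1, D.y 0 * D.y 1} := e2
  have e3' : fixedField D.G3 = adjoin k {D.x 0 + D.x 1 + D.x 2, D.x 0 * D.x 1 + D.x 0 * D.x 2 + D.x 1 * D.x 2,
    D.x 0 * D.x 1 * D.x 2, D.y 0 * D.y 1 * D.y 2} := e3
  have hgen' : adjoin k ({D.x 0, D.x 1, D.x 2, D.y 0, D.y 1, D.y 2} : Set N) = ⊤ := by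
    refine eq_top_of D.hgen ?_
    rintro s (⟨i, rfl⟩ | ⟨i, rfl⟩) <;> refine subset_adjoin k _ ?_ <;> fin_cases i <;> simp
  refine ⟨?_, ?_, ?_⟩
  · rw [e1']
    exact vpj_phi0 hx0 (hf 0) hc D.hφ
  · rw [e2']
    obtain ⟨a, b, c, h1, h2⟩ := six_phi1 hf0 hfn (hf 0) (hf 1)
    exact vpj_six_sub D.hx (bd_phi1 (hf 0) (hf 2) (hy0 0) hx2 hgen') h1 h2
  · rw [e3']
    obtain ⟨u, v, a, b, c, h1, h2, h3⟩ := six_phi2 hf0 hfn (hf 0) (hf 1) (hf 2) (hy0 0) (hy0 1) (hy0 2) hc D.hφ
    have hb := bd_phi2 (hf 0) (hf 1) (hy0 0) (hy0 1) hgen'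
    rw [h3] at hb ⊢
    exact vpj_six_sub D.hx hb h1 h2

end

theorem i3 : StmtI3.{u} := fun _ _ _ _ _ _ _ D hA => i3' D hA

end Pool.Agent.Helper67.IR
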